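import Pool.Agent.H99.SQ.Defs

/-!
Board `sqf2_modules`, letters CRT and MOM.
-/

set_option autoImplicit false

namespace Pool.Agent.H65.SQ

open Finset Pool.Agent.H99.SQ

theorem pf_CRT : T_CRT := by
  intro Q q f g hQ hq hc hf hg
  have hf' : ∀ a, f (a % Q) = f a := Function.Periodic.map_mod_nat hf
  have hg' : ∀ a, g (a % q) = g a := Function.Periodic.map_mod_nat hg
  rw [Finset.sum_mul_sum, ← Finset.sum_product']
  apply Finset.sum_nbij (fun a => (a % Q, a % q))
  · intro a _
    rw [Finset.mem_product, Finset.mem_range, Finset.mem_range]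
    exact ⟨Nat.mod_lt _ hQ, Nat.mod_lt _ hq⟩
  · intro a ha b hb hab
    rw [Finset.mem_coe, Finset.mem_range] at ha hb
    have h1 : a ≡ b [MOD Q] := (Prod.mk.inj hab).1
    have h2 : a ≡ b [MOD q] := (Prod.mk.inj hab).2
    have h3 : a ≡ b [MOD Q * q] := (Nat.modEq_and_modEq_iff_modEq_mul hc).mp ⟨h1, h2⟩
    exact Nat.ModEq.eq_of_lt_of_lt h3 ha hb
  · rintro ⟨x, y⟩ hxy
    rw [Finset.mem_coe, Finset.mem_product, Finset.mem_range, Finset.mem_range] at hxy
    refine ⟨(Nat.chineseRemainder hc x y : ℕ), ?_, ?_⟩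
    · rw [Finset.mem_coe, Finset.mem_range]
      exact Nat.chineseRemainder_lt_mul hc x y hQ.ne' hq.ne'
    · have h := (Nat.chineseRemainder hc x y).2
      have h1 : (Nat.chineseRemainder hc x y : ℕ) % Q = x := by
        have := h.1
        rw [Nat.ModEq, Nat.mod_eq_of_lt hxy.1] at this
        exact this
      have h2 : (Nat.chineseRemainder hc x y : ℕ) % q = y := by
        have := h.2
        rw [Nat.ModEq, Nat.mod_eq_of_lt hxy.2] at this
        exact this
      simp only [h1, h2]
  · intro a _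
    simp only [hf', hg']

theorem ci_nonneg (p n : ℕ) : 0 ≤ ci p n := by
  classical
  rw [ci]
  split_ifs
  · exact zero_le_one
  · exact le_rfl

theorem ci_le_one (p n : ℕ) : ci p n ≤ 1 := by
  classical
  rw [ci]
  split_ifs
  · exact le_rfl
  · exact zero_le_one

theorem ci_cases (p n : ℕ) : ci p n = 0 ∨ ci p n = 1 := by
  classical
  rw [ci]
  split_ifs
  · exact Or.inr rfl
  · exact Or.inl rfl

theorem QQ_pos (F : Finset ℕ) (hF : ∀ p ∈ F, OP p) : 0 < QQ F :=
  Finset.prod_pos (fun p hp => pow_pos (hF p hp).1.pos 2)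

theorem pf_MOM (h1 : T_CRT) (h2 : T_ACT) : T_MOM := by
  intro F g
  classical
  induction F using Finset.induction_on with
  | empty =>
    intro _
    refine ⟨fun n => by simp, ?_⟩
    simp [QQ]
  | insert p F hp ih =>
    intro hF
    have hFp := hF p (Finset.mem_insert_self p F)
    have hF' : ∀ r ∈ F, OP r ∧ 0 ≤ g r := fun r hr => hF r (Finset.mem_insert_of_mem hr)
    obtain ⟨ih1, ih2⟩ := ih hF'
    obtain ⟨hper, hsum⟩ := h2 p hFp.1
    have hQQ : QQ (insert p F) = QQ F * p ^ 2 := by
      rw [QQ, Finset.prod_insert hp, mul_comm]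
      rfl
    have hppos : 0 < p ^ 2 := pow_pos hFp.1.1.pos 2
    have hcop : Nat.Coprime (QQ F) (p ^ 2) := by
      apply Nat.Coprime.symm
      apply Nat.Coprime.prod_right
      intro r hr
      apply Nat.Coprime.pow
      rw [Nat.coprime_primes hFp.1.1 (hF' r hr).1.1]
      rintro rfl
      exact hp hr
    have hper1 : Function.Periodic (fun n => ∏ r ∈ F, (1 + g r * ci r n)) (QQ F) := ih1
    have hper2 : Function.Periodic (fun n => 1 + g p * ci p n) (p ^ 2) := by
      intro n
      simp only [hper]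
    constructor
    · intro n
      rw [Finset.prod_insert hp, Finset.prod_insert hp, hQQ]
      have e1 : ∏ r ∈ F, (1 + g r * ci r (n + QQ F * p ^ 2)) = ∏ r ∈ F, (1 + g r * ci r n) := by
        have := (hper1.nat_mul (p ^ 2)) n
        rw [mul_comm (QQ F) (p ^ 2)]
        simpa only [Nat.cast_id] using this
      have e2 : 1 + g p * ci p (n + QQ F * p ^ 2) = 1 + g p * ci p n := by
        have := (hper2.nat_mul (QQ F)) n
        simpa only [Nat.cast_id] using this
      rw [e1, e2]
    · rw [hQQ]
      have e3 : ∀ a, ∏ r ∈ insert p F, (1 + g r * ci r a) =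
          (∏ r ∈ F, (1 + g r * ci r a)) * (1 + g p * ci p a) := by
        intro a
        rw [Finset.prod_insert hp, mul_comm]
      simp only [e3]
      rw [h1 (QQ F) (p ^ 2) (fun a => ∏ r ∈ F, (1 + g r * ci r a)) (fun a => 1 + g p * ci p a)
        (QQ_pos F fun r hr => (hF' r hr).1) hppos hcop ih1 hper2,
        Finset.prod_insert hp, mul_comm ((p : ℝ) ^ 2 + mm p * g p)]
      have hs2 : ∑ a ∈ range (p ^ 2), (1 + g p * ci p a) ≤ (p : ℝ) ^ 2 + mm p * g p := by
        rw [Finset.sum_add_distrib, ← Finset.mul_sum]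
        have := mul_le_mul_of_nonneg_left hsum hFp.2
        simp only [Finset.sum_const, Finset.card_range, nsmul_eq_mul, mul_one]
        push_cast
        linarith
      have hs0 : 0 ≤ ∑ a ∈ range (p ^ 2), (1 + g p * ci p a) :=
        Finset.sum_nonneg (fun a _ => by
          have := mul_nonneg hFp.2 (ci_nonneg p a)
          linarith)
      have hp0 : 0 ≤ ∏ r ∈ F, ((r : ℝ) ^ 2 + mm r * g r) :=
        Finset.prod_nonneg (fun r hr => by
          have := (hF' r hr).2
          positivity)
      exact mul_le_mul ih2 hs2 hs0 hp0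

end Pool.Agent.H65.SQ
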