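import Mathlib

/-!
# Exact cocycles on finite `F_2`-vector spaces (step 8e for MP_22a11a_co, proof of helper45)

* `symcoc_add`: a symmetric 2-cocycle of a finite elementary abelian 2-group with values in an
  abelian group in which every element is divisible by 2 is a coboundary.
* `symcoc`: the same with values complex numbers of modulus one.
* `coc4`: every `ZMod 4`-valued 2-cocycle is, after the character `k ↦ I ^ k`, the product of a
  coboundary and the sign of a bilinear form.
-/

namespace Pool.Agent.H65.SQ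

open Finset

section sym

variable {H A : Type*} [AddCommGroup H] [AddCommGroup A]

/-- the subgroup `K ∪ (K + v)` -/
def adj (h2 : ∀ x : H, x + x = 0) (K : AddSubgroup H) (v : H) : AddSubgroup H where
  carrier := {x | x ∈ K ∨ x + v ∈ K}
  zero_mem' := Or.inl K.zero_mem
  add_mem' := by
    intro a b ha hb
    simp only [Set.mem_ofPred_eq] at ha hb ⊢
    rcases ha with ha | ha <;> rcases hb with hb | hb
    · exact Or.inl (K.add_mem ha hb)
    · right
      have : a + b + v = a + (b + v) := by abel
      rw [this]; exact K.add_mem ha hb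
    · right
      have : a + b + v = (a + v) + b := by abel
      rw [this]; exact K.add_mem ha hb
    · left
      have : a + b = (a + v) + (b + v) := by
        have h : (a + v) + (b + v) = a + b + (v + v) := by abel
        rw [h, h2, add_zero]
      rw [this]; exact K.add_mem ha hb
  neg_mem' := by
    intro a ha
    have hneg : -a = a := by
      rw [neg_eq_iff_add_eq_zero]; exact h2 a
    rw [hneg]; exact ha

/-- extension of a trivialisation by one vector -/
lemma ext_step (h2 : ∀ x : H, x + x = 0) (hdiv : ∀ a : A, ∃ b, b + b = a)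
    (W : H → H → A) (hs : ∀ x y, W x y = W y x)
    (hc : ∀ x y z, W x y + W (x + y) z = W y z + W x (y + z))
    (K : AddSubgroup H) (w : H → A) (hw : ∀ y ∈ K, ∀ z ∈ K, W y z = w y + w z - w (y + z))
    (v : H) (hv : v ∉ K) :
    ∃ w' : H → A, ∀ y ∈ adj h2 K v, ∀ z ∈ adj h2 K v, W y z = w' y + w' z - w' (y + z) := by
  classical
  obtain ⟨s, hs2⟩ := hdiv (W v v + w 0)
  have hW0 : W 0 0 = w 0 := by
    rw [hw 0 K.zero_mem 0 K.zero_mem, add_zero]; abel
  have hWx : ∀ x, W x 0 = w 0 := by
    intro x
    have h := hc x 0 0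
    rw [add_zero, add_zero] at h
    rw [← hW0]
    have h' : W x 0 + W x 0 = W x 0 + W 0 0 := by rw [h]; abel
    exact add_left_cancel h'
  let w' : H → A := fun x => if x ∈ K then w x else w (x + v) + s - W (x + v) v
  have hin : ∀ k ∈ K, w' k = w k := fun k hk => if_pos hk
  have hnot : ∀ k ∈ K, k + v ∉ K := by
    intro k hk h
    apply hv
    have : v = (k + v) - k := by abel
    rw [this]; exact K.sub_mem h hk
  have hvv : ∀ x : H, x + v + v = x := by
    intro x
    rw [add_assoc, h2, add_zero]
  have hout : ∀ k ∈ K, w' (k + v) = w k + s - W k v := by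
    intro k hk
    have : w' (k + v) = w (k + v + v) + s - W (k + v + v) v := if_neg (hnot k hk)
    rw [this, hvv]
  -- the mixed case
  have mix : ∀ k1 ∈ K, ∀ k2 ∈ K, W k1 (k2 + v) = w' k1 + w' (k2 + v) - w' (k1 + (k2 + v)) := by
    intro k1 h1 k2 h2'
    rw [hin k1 h1, hout k2 h2', ← add_assoc, hout (k1 + k2) (K.add_mem h1 h2')]
    have e := hc k1 k2 v
    have e2 := hw k1 h1 k2 h2'
    have e3 : W k1 (k2 + v) = W k1 k2 + W (k1 + k2) v - W k2 v := by rw [e]; abel
    rw [e3, e2]; abel
  refine ⟨w', ?_⟩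
  intro y hy z hz
  have hy' : y ∈ K ∨ y + v ∈ K := hy
  have hz' : z ∈ K ∨ z + v ∈ K := hz
  rcases hy' with hy1 | hy1 <;> rcases hz' with hz1 | hz1
  · rw [hin y hy1, hin z hz1, hin _ (K.add_mem hy1 hz1)]
    exact hw y hy1 z hz1
  · have := mix y hy1 (z + v) hz1
    rw [hvv] at this
    exact this
  · have := mix z hz1 (y + v) hy1
    rw [hvv] at this
    rw [hs y z, this, add_comm y z]; abel
  · set k1 := y + v with hk1
    set k2 := z + v with hk2
    have ey : y = k1 + v := (hvv y).symm
    have ez : z = k2 + v := (hvv z).symm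
    have hsum : y + z = k1 + k2 := by
      rw [hk1, hk2]
      have : y + v + (z + v) = y + z + (v + v) := by abel
      rw [this, h2, add_zero]
    rw [hsum, hin _ (K.add_mem hy1 hz1), ey, ez, hout k1 hy1, hout k2 hz1]
    have e1 := hc k1 v (k2 + v)
    have e2 := hc k2 v v
    have e3 : v + (k2 + v) = k2 := by
      have : v + (k2 + v) = k2 + (v + v) := by abel
      rw [this, h2, add_zero]
    rw [e3, hs v (k2 + v)] at e1
    rw [h2 v, hWx k2] at e2
    have f1 : W (k1 + v) (k2 + v) = W (k2 + v) v + W k1 k2 - W k1 v := by rw [← e1]; abel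
    have f2 : W (k2 + v) v = W v v + w 0 - W k2 v := by rw [← e2]; abel
    rw [f1, f2, hw k1 hy1 k2 hz1, ← hs2]
    abel

/-- symmetric cocycles are coboundaries, additive form -/
theorem symcoc_add [Finite H] (h2 : ∀ x : H, x + x = 0) (hdiv : ∀ a : A, ∃ b, b + b = a)
    (W : H → H → A) (hs : ∀ x y, W x y = W y x)
    (hc : ∀ x y z, W x y + W (x + y) z = W y z + W x (y + z)) :
    ∃ w : H → A, ∀ y z, W y z = w y + w z - w (y + z) := by
  classical
  have wf : WellFounded (fun K L : AddSubgroup H => K > L) := wellFounded_gt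
  obtain ⟨K, ⟨w, hw⟩, hmax⟩ := wf.has_min
    {K : AddSubgroup H | ∃ w : H → A, ∀ y ∈ K, ∀ z ∈ K, W y z = w y + w z - w (y + z)}
    ⟨⊥, fun _ => W 0 0, by
      intro y hy z hz
      rw [AddSubgroup.mem_bot] at hy hz
      subst hy; subst hz
      simp⟩
  by_cases hK : K = ⊤
  · refine ⟨w, fun y z => hw y ?_ z ?_⟩ <;> rw [hK] <;> exact AddSubgroup.mem_top _
  · exfalso
    have hex : ∃ v, v ∉ K := by
      by_contra hcon
      push Not at hcon
      exact hK (eq_top_iff.mpr (fun x _ => hcon x))
    obtain ⟨v, hv⟩ := hex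
    have hext := ext_step h2 hdiv W hs hc K w hw v hv
    refine hmax (adj h2 K v) hext ?_
    refine lt_of_le_of_ne (fun x hx => Or.inl hx) ?_
    intro heq
    apply hv
    have : v ∈ adj h2 K v := Or.inr (by rw [h2]; exact K.zero_mem)
    rw [← heq] at this
    exact this

end sym

open scoped ComplexConjugate

lemma circle_sqrt (a : Additive Circle) : ∃ b : Additive Circle, b + b = a := by
  refine ⟨Additive.ofMul (Circle.exp (Complex.arg (a.toMul : ℂ) / 2)), ?_⟩
  rw [← ofMul_mul, ← Circle.exp_add, add_halves, Circle.exp_arg]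
  rfl

variable {H : Type*} [AddCommGroup H] [Module (ZMod 2) H] [Finite H]

omit [Finite H] in
lemma two_zero (x : H) : x + x = 0 := by
  rw [← two_smul (ZMod 2) x]
  have : (2 : ZMod 2) = 0 := by decide
  rw [this, zero_smul]

/-- a complex number of modulus one as an element of the circle -/
noncomputable def toC (z : ℂ) (h : ‖z‖ = 1) : Circle := ⟨z, mem_sphere_zero_iff_norm.2 h⟩

lemma coe_toC (z : ℂ) (h : ‖z‖ = 1) : (toC z h : ℂ) = z := rfl

/-- symmetric cocycles of modulus one are coboundaries -/
theorem symcoc (W : H → H → ℂ) (hn : ∀ x y, ‖W x y‖ = 1) (hs : ∀ x y, W x y = W y x)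
    (hc : ∀ x y z, W x y * W (x + y) z = W y z * W x (y + z)) :
    ∃ w : H → ℂ, (∀ x, ‖w x‖ = 1) ∧ ∀ y z, W y z = w y * w z * conj (w (y + z)) := by
  obtain ⟨w, hw⟩ := symcoc_add (two_zero (H := H)) circle_sqrt
    (fun x y => Additive.ofMul (toC (W x y) (hn x y)))
    (fun x y => by
      apply congrArg Additive.ofMul
      apply Circle.ext
      rw [coe_toC, coe_toC, hs x y])
    (fun x y z => by
      rw [← ofMul_mul, ← ofMul_mul]
      apply congrArg Additive.ofMul
      apply Circle.ext
      rw [Circle.coe_mul, Circle.coe_mul, coe_toC, coe_toC, coe_toC, coe_toC]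
      exact hc x y z)
  refine ⟨fun x => ((w x).toMul : ℂ), fun x => Circle.norm_coe _, fun y z => ?_⟩
  have h := hw y z
  have h' : toC (W y z) (hn y z) = (w y).toMul * (w z).toMul / (w (y + z)).toMul := by
    have := congrArg Additive.toMul h
    rw [toMul_ofMul, toMul_sub, toMul_add] at this
    exact this
  have h'' : (toC (W y z) (hn y z) : ℂ) = ((w y).toMul * (w z).toMul / (w (y + z)).toMul : Circle) :=
    congrArg (fun c : Circle => (c : ℂ)) h'
  rw [coe_toC, div_eq_mul_inv, Circle.coe_mul, Circle.coe_mul, Circle.coe_inv_eq_conj] at h''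
  exact h''

/-- doubling `ZMod 2 → ZMod 4` -/
def dbl (a : ZMod 2) : ZMod 4 := if a = 0 then 0 else 2

/-- halving on `{0, 2}` -/
def half (a : ZMod 4) : ZMod 2 := if a = 0 then 0 else 1

lemma dbl_add (a b : ZMod 2) : dbl (a + b) = dbl a + dbl b := by
  revert a b; decide

lemma dbl_self (a : ZMod 2) : dbl a = - dbl a := by
  revert a; decide

lemma half_add (a b : ZMod 4) (ha : a + a = 0) (hb : b + b = 0) :
    half (a + b) = half a + half b := by
  revert a b; decide

lemma dbl_half (a : ZMod 4) (ha : a + a = 0) : dbl (half a) = a := by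
  revert a; decide

lemma I_pow_add (a b : ZMod 4) :
    Complex.I ^ (a + b).val = Complex.I ^ a.val * Complex.I ^ b.val := by
  rw [← pow_add, ZMod.val_add, ← Complex.I_pow_eq_pow_mod]

lemma I_pow_dbl (a : ZMod 2) : Complex.I ^ (dbl a).val = (-1) ^ a.val := by
  have h : a = 0 ∨ a = 1 := by revert a; decide
  rcases h with rfl | rfl
  · have h1 : (dbl 0).val = 0 := by decide
    have h2 : (0 : ZMod 2).val = 0 := by decide
    rw [h1, h2, pow_zero, pow_zero]
  · have h1 : (dbl 1).val = 2 := by decide
    have h2 : (1 : ZMod 2).val = 1 := by decide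
    rw [h1, h2, pow_one, Complex.I_sq]

/-- an alternating bilinear form over `F_2` is `m + m.flip` -/
lemma alt_split (b : H →ₗ[ZMod 2] H →ₗ[ZMod 2] ZMod 2) (halt : ∀ x, b x x = 0) :
    ∃ m : H →ₗ[ZMod 2] H →ₗ[ZMod 2] ZMod 2, ∀ y z, b y z = m y z + m z y := by
  classical
  let e := Module.finBasis (ZMod 2) H
  let m : H →ₗ[ZMod 2] H →ₗ[ZMod 2] ZMod 2 :=
    e.constr (ZMod 2) (fun i => e.constr (ZMod 2) (fun j => if i < j then b (e i) (e j) else 0))
  have hm : ∀ i j, m (e i) (e j) = if i < j then b (e i) (e j) else 0 := by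
    intro i j
    simp only [m, Module.Basis.constr_basis]
  have hsym : ∀ x y, b x y = b y x := by
    intro x y
    have h := halt (x + y)
    simp only [map_add, LinearMap.add_apply, halt, zero_add, add_zero] at h
    have h3 : ∀ a c : ZMod 2, a + c = 0 → a = c := by decide
    exact (h3 _ _ h).symm
  have hb : b = m + m.flip := by
    apply LinearMap.ext_basis e e
    intro i j
    simp only [LinearMap.add_apply, LinearMap.flip_apply, hm]
    rcases lt_trichotomy i j with h | h | h
    · rw [if_pos h, if_neg (not_lt.mpr h.le), add_zero]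
    · subst h
      rw [if_neg (lt_irrefl _), halt, add_zero]
    · rw [if_neg (not_lt.mpr h.le), if_pos h, zero_add, hsym]
  refine ⟨m, fun y z => ?_⟩
  have h : b y z = (m + m.flip) y z := by rw [← hb]
  rw [h, LinearMap.add_apply, LinearMap.add_apply, LinearMap.flip_apply]

omit [Module (ZMod 2) H] [Finite H] in
/-- the commutator pairing is additive in the second variable -/
lemma comm_add {A : Type*} [AddCommGroup A] (D : H → H → A)
    (hc : ∀ x y z, D x y + D (x + y) z = D y z + D x (y + z)) (y z1 z2 : H) :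
    D y (z1 + z2) - D (z1 + z2) y = (D y z1 - D z1 y) + (D y z2 - D z2 y) := by
  have h1 := hc y z1 z2
  have h2 := hc z1 z2 y
  have h3 := hc z1 y z2
  have e1 : z2 + y = y + z2 := add_comm _ _
  have e2 : z1 + y = y + z1 := add_comm _ _
  rw [e1] at h2
  rw [e2] at h3
  have a1 : D y (z1 + z2) = D y z1 + D (y + z1) z2 - D z1 z2 := by rw [h1]; abel
  have a2 : D (z1 + z2) y = D z2 y + D z1 (y + z2) - D z1 z2 := by rw [← h2]; abel
  have a3 : D (y + z1) z2 = D y z2 + D z1 (y + z2) - D z1 y := by rw [← h3]; abel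
  rw [a1, a2, a3]; abel

/-- every `ZMod 4`-valued cocycle is a bilinear sign times a coboundary -/
theorem coc4 (D : H → H → ZMod 4)
    (hc : ∀ x y z, D x y + D (x + y) z = D y z + D x (y + z)) :
    ∃ m : H →ₗ[ZMod 2] H →ₗ[ZMod 2] ZMod 2, ∃ w : H → ℂ, (∀ x, ‖w x‖ = 1) ∧
      ∀ y z, Complex.I ^ (D y z).val = w y * w z * conj (w (y + z)) * (-1) ^ (m y z).val := by
  classical
  let β : H → H → ZMod 4 := fun y z => D y z - D z y
  have badd : ∀ y z1 z2, β y (z1 + z2) = β y z1 + β y z2 := fun y z1 z2 => comm_add D hc y z1 z2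
  have banti : ∀ y z, β y z = - β z y := fun y z => (neg_sub _ _).symm
  have badd' : ∀ y1 y2 z, β (y1 + y2) z = β y1 z + β y2 z := by
    intro y1 y2 z
    rw [banti, badd, banti y1 z, banti y2 z]; abel
  have b0 : ∀ y, β y 0 = 0 := by
    intro y
    have := badd y 0 0
    rw [add_zero] at this
    exact (left_eq_add.mp this)
  have btwo : ∀ y z, β y z + β y z = 0 := by
    intro y z
    rw [← badd, two_zero, b0]
  let bf : H → H → ZMod 2 := fun y z => half (β y z)
  have f1 : ∀ y1 y2 z, bf (y1 + y2) z = bf y1 z + bf y2 z := by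
    intro y1 y2 z
    simp only [bf]
    rw [badd', half_add _ _ (btwo _ _) (btwo _ _)]
  have f2 : ∀ y z1 z2, bf y (z1 + z2) = bf y z1 + bf y z2 := by
    intro y z1 z2
    simp only [bf]
    rw [badd, half_add _ _ (btwo _ _) (btwo _ _)]
  have f3 : ∀ z, bf 0 z = 0 := by
    intro z
    have h := f1 0 0 z
    rw [add_zero] at h
    exact left_eq_add.mp h
  have f4 : ∀ y, bf y 0 = 0 := by
    intro y
    have h := f2 y 0 0
    rw [add_zero] at h
    exact left_eq_add.mp h
  have hz2 : ∀ c : ZMod 2, c = 0 ∨ c = 1 := by decide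
  let b : H →ₗ[ZMod 2] H →ₗ[ZMod 2] ZMod 2 := LinearMap.mk₂ (ZMod 2) bf f1
    (fun c y z => by
      rcases hz2 c with rfl | rfl
      · rw [zero_smul, zero_smul, f3]
      · rw [one_smul, one_smul])
    f2
    (fun c y z => by
      rcases hz2 c with rfl | rfl
      · rw [zero_smul, zero_smul, f4]
      · rw [one_smul, one_smul])
  obtain ⟨m, hm⟩ := alt_split b (fun x => by
    change half (D x x - D x x) = 0
    rw [sub_self]; decide)
  have hm' : ∀ y z, half (β y z) = m y z + m z y := hm
  have hβ : ∀ y z, β y z = dbl (m y z) + dbl (m z y) := by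
    intro y z
    rw [← dbl_add, ← hm', dbl_half _ (btwo _ _)]
  -- the symmetric cocycle
  let S : H → H → ZMod 4 := fun y z => D y z + dbl (m y z)
  have hS1 : ∀ y z, S y z = S z y := by
    intro y z
    have h := hβ y z
    have h' : D y z = D z y + (dbl (m y z) + dbl (m z y)) := by
      rw [← h]; simp only [β]; abel
    simp only [S]
    rw [h']
    have h4 : dbl (m y z) + dbl (m y z) = 0 := by
      have : ∀ a : ZMod 2, dbl a + dbl a = 0 := by decide
      exact this _
    calc D z y + (dbl (m y z) + dbl (m z y)) + dbl (m y z)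
        = D z y + dbl (m z y) + (dbl (m y z) + dbl (m y z)) := by abel
      _ = _ := by rw [h4, add_zero]
  have hS2 : ∀ x y z, S x y + S (x + y) z = S y z + S x (y + z) := by
    intro x y z
    simp only [S, map_add, LinearMap.add_apply, dbl_add]
    have h := hc x y z
    calc D x y + dbl (m x y) + (D (x + y) z + (dbl (m x z) + dbl (m y z)))
        = (D x y + D (x + y) z) + (dbl (m x y) + dbl (m x z) + dbl (m y z)) := by abel
      _ = (D y z + D x (y + z)) + (dbl (m x y) + dbl (m x z) + dbl (m y z)) := by rw [h]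
      _ = _ := by abel
  obtain ⟨w, hw1, hw2⟩ := symcoc (fun y z => Complex.I ^ (S y z).val)
    (fun x y => by rw [norm_pow, Complex.norm_I, one_pow])
    (fun x y => by rw [hS1])
    (fun x y z => by rw [← I_pow_add, ← I_pow_add, hS2])
  refine ⟨m, w, hw1, fun y z => ?_⟩
  rw [← hw2 y z]
  have h : D y z = S y z + dbl (m y z) := by
    simp only [S]
    have h4 : dbl (m y z) + dbl (m y z) = 0 := by
      have : ∀ a : ZMod 2, dbl a + dbl a = 0 := by decide
      exact this _
    rw [add_assoc, h4, add_zero]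
  rw [h, I_pow_add, I_pow_dbl]

end Pool.Agent.H65.SQ
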