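import Pool.Agent.H65.SQ.PERT

/-!
# Module M7 of the board sq_modules (MP_22a11a_co)
-/

namespace Pool.Agent.H65.SQ

open Finset Polynomial Pool.Agent.H45.SQ
open scoped BigOperators ComplexConjugate ComplexOrder

/-- scalar estimate: `h` is close to `0` or `1` when `h - h²` is small -/
lemma stp_close (h : ℝ) : |h - stp h| ≤ 2 * |h - h ^ 2| := by
  unfold stp
  have e : h - h ^ 2 = h * (1 - h) := by ring
  rw [e, abs_mul]
  split_ifs with h1
  · have h2 : (1 : ℝ) / 2 ≤ |h| := by rw [abs_of_pos (by linarith)]; linarith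
    have h3 : |h - 1| = |1 - h| := abs_sub_comm _ _
    rw [h3]
    nlinarith [abs_nonneg (1 - h)]
  · push Not at h1
    have h2 : (1 : ℝ) / 2 ≤ |1 - h| := by rw [abs_of_pos (by linarith)]; linarith
    rw [sub_zero]
    nlinarith [abs_nonneg h]

/-- counting lemma: if `∑ (h - h²)²` is small and `∑ h²` is close to `1`, exactly one `h` is
greater than one half -/
lemma one_big {ι : Type} [Fintype ι] [DecidableEq ι] (h : ι → ℝ) (τ : ℝ) (_hτ : 0 ≤ τ)
    (hτ1 : τ ≤ 1 / 10000)
    (h1 : ∑ i, (h i - h i ^ 2) ^ 2 ≤ τ) (h2 : |∑ i, h i ^ 2 - 1| ≤ τ) :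
    ∃ i₀, ∀ i, stp (h i) = if i = i₀ then 1 else 0 := by
  set S := (Finset.univ : Finset ι).filter (fun i => 1 / 2 < h i) with hS
  have hterm : ∀ i, |h i - h i ^ 2| ≤ 1 / 100 := by
    intro i
    have h3 : (h i - h i ^ 2) ^ 2 ≤ (1 / 100) ^ 2 := by
      have h4 := Finset.single_le_sum (f := fun i => (h i - h i ^ 2) ^ 2)
        (fun i _ => by positivity) (Finset.mem_univ i)
      calc (h i - h i ^ 2) ^ 2 ≤ ∑ i, (h i - h i ^ 2) ^ 2 := h4
        _ ≤ 1 / 10000 := h1.trans hτ1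
        _ = (1 / 100) ^ 2 := by norm_num
    exact abs_le_of_sq_le_sq h3 (by norm_num)
  -- pointwise: `|h² - stp h| ≤ ...`
  have hin : ∀ i ∈ S, |h i ^ 2 - 1| ≤ 1 / 20 ∧ (9 : ℝ) / 10 ≤ h i ^ 2 := by
    intro i hi
    have hi' : 1 / 2 < h i := by
      rw [hS, Finset.mem_filter] at hi
      exact hi.2
    have h3 := stp_close (h i)
    unfold stp at h3
    rw [if_pos hi'] at h3
    have h4 := hterm i
    have h5 : |h i - 1| ≤ 1 / 50 := by linarith
    have h6 := abs_le.mp h5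
    constructor
    · rw [abs_le]
      constructor <;> nlinarith
    · nlinarith
  have hout : ∀ i ∉ S, h i ^ 2 ≤ 4 * (h i - h i ^ 2) ^ 2 := by
    intro i hi
    have hi' : ¬ 1 / 2 < h i := by
      intro hcon
      exact hi (by rw [hS, Finset.mem_filter]; exact ⟨Finset.mem_univ _, hcon⟩)
    have h3 := stp_close (h i)
    unfold stp at h3
    rw [if_neg hi', sub_zero] at h3
    calc h i ^ 2 = |h i| ^ 2 := (sq_abs _).symm
      _ ≤ (2 * |h i - h i ^ 2|) ^ 2 := pow_le_pow_left₀ (abs_nonneg _) h3 2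
      _ = 4 * (h i - h i ^ 2) ^ 2 := by rw [mul_pow, sq_abs]; norm_num
  have hsplit : ∑ i, h i ^ 2 = ∑ i ∈ S, h i ^ 2 + ∑ i ∈ Sᶜ, h i ^ 2 :=
    (Finset.sum_add_sum_compl S _).symm
  have hout2 : ∑ i ∈ Sᶜ, h i ^ 2 ≤ 4 * τ := by
    calc ∑ i ∈ Sᶜ, h i ^ 2 ≤ ∑ i ∈ Sᶜ, 4 * (h i - h i ^ 2) ^ 2 :=
          Finset.sum_le_sum (fun i hi => hout i (Finset.mem_compl.mp hi))
      _ ≤ ∑ i, 4 * (h i - h i ^ 2) ^ 2 :=
          Finset.sum_le_sum_of_subset_of_nonneg (Finset.subset_univ _)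
            (fun i _ _ => by positivity)
      _ = 4 * ∑ i, (h i - h i ^ 2) ^ 2 := by rw [Finset.mul_sum]
      _ ≤ 4 * τ := by linarith
  have hout0 : 0 ≤ ∑ i ∈ Sᶜ, h i ^ 2 := Finset.sum_nonneg (fun i _ => by positivity)
  have h2' := abs_le.mp h2
  have hlow : (9 : ℝ) / 10 * S.card ≤ ∑ i ∈ S, h i ^ 2 := by
    calc (9 : ℝ) / 10 * S.card = ∑ _i ∈ S, (9 : ℝ) / 10 := by
          rw [Finset.sum_const, nsmul_eq_mul]; ring
      _ ≤ _ := Finset.sum_le_sum (fun i hi => (hin i hi).2)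
  have hup : ∑ i ∈ S, h i ^ 2 ≤ (21 : ℝ) / 20 * S.card := by
    calc ∑ i ∈ S, h i ^ 2 ≤ ∑ _i ∈ S, (21 : ℝ) / 20 := by
          apply Finset.sum_le_sum
          intro i hi
          have := (abs_le.mp (hin i hi).1).2
          linarith
      _ = (21 : ℝ) / 20 * S.card := by
          rw [Finset.sum_const, nsmul_eq_mul]; ring
  have hcard : S.card = 1 := by
    have h3 : (S.card : ℝ) < 2 := by linarith
    have h4 : (0 : ℝ) < S.card := by
      by_contra hcon
      push Not at hcon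
      have : (21 : ℝ) / 20 * S.card ≤ 0 := by linarith
      linarith
    have h5 : S.card < 2 := by exact_mod_cast h3
    have h6 : 0 < S.card := by exact_mod_cast h4
    omega
  obtain ⟨i₀, hi₀⟩ := Finset.card_eq_one.mp hcard
  refine ⟨i₀, fun i => ?_⟩
  unfold stp
  have h3 : 1 / 2 < h i ↔ i = i₀ := by
    have h4 : i ∈ S ↔ i = i₀ := by rw [hi₀, Finset.mem_singleton]
    rw [← h4, hS, Finset.mem_filter]
    simp
  simp only [h3]

theorem m7 : T_M7 := by
  intro K ε hK hε
  set τ : ℝ := min 1 (ε / (2 * K ^ 2)) with hτ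
  set σ : ℝ := min (1 / 100) (ε / (64 * K ^ 2)) with hσ
  have hτ0 : 0 < τ := by rw [hτ]; positivity
  have hσ0 : 0 < σ := by rw [hσ]; positivity
  have hτ1 : τ ≤ 1 := min_le_left _ _
  have hτ2 : τ ≤ ε / (2 * K ^ 2) := min_le_right _ _
  have hσ1 : σ ≤ 1 / 100 := min_le_left _ _
  have hσ2 : σ ≤ ε / (64 * K ^ 2) := min_le_right _ _
  refine ⟨τ, σ ^ 2, hτ0, by positivity, ?_⟩
  intro R h hKR hR hcut G _ _ _ _ M F hM hE hF htr1 htr2
  obtain ⟨_, _, hlow, hup⟩ := hcut
  have hN : (0 : ℝ) < (Fintype.card G : ℝ) := by exact_mod_cast Fintype.card_pos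
  let S := SD.of hM
  set hh : G → ℝ := fun i => h.eval (S.l i) with hhh
  have hFsp : F = S.sp (fun i => ((hh i : ℝ) : ℂ)) := by rw [hF, S.aeval]
  have e1 : ((F - F * F) * (F - F * F)).trace.re = ∑ i, (hh i - hh i ^ 2) ^ 2 := by
    rw [hFsp, S.sp_mul, S.sp_sub, S.sp_mul, S.trace_sp]
    rw [Complex.re_sum]
    apply Finset.sum_congr rfl
    intro i _
    have : ((hh i : ℂ) - (hh i : ℂ) * (hh i : ℂ)) * ((hh i : ℂ) - (hh i : ℂ) * (hh i : ℂ))
        = (((hh i - hh i ^ 2) ^ 2 : ℝ) : ℂ) := by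
      push_cast
      ring
    rw [this, Complex.ofReal_re]
  have e2 : (F * F).trace.re = ∑ i, hh i ^ 2 := by
    rw [hFsp, S.sp_mul, S.trace_sp, Complex.re_sum]
    apply Finset.sum_congr rfl
    intro i _
    have : (hh i : ℂ) * (hh i : ℂ) = ((hh i ^ 2 : ℝ) : ℂ) := by
      push_cast
      ring
    rw [this, Complex.ofReal_re]
  rw [e1] at htr1
  rw [e2] at htr2
  have hσsq : σ ^ 2 ≤ 1 / 10000 := by nlinarith
  obtain ⟨i₀, hi₀⟩ := one_big hh (σ ^ 2) (by positivity) hσsq htr1 htr2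
  have hl : ∀ i, |S.l i| ≤ K := fun i => S.abs_l_le K hK.le hE i
  -- eigenvalue of the distinguished vector
  have hsmall : ∀ i, |S.l i| < 1 / 4 → |hh i| ≤ τ * S.l i ^ 2 := by
    intro i hi
    have h3 := abs_lt.mp hi
    exact hlow (S.l i) (by linarith) (by linarith)
  have hli₀ : 1 / 4 ≤ |S.l i₀| := by
    by_contra hcon
    push Not at hcon
    have h3 := hsmall i₀ hcon
    have h4 : S.l i₀ ^ 2 ≤ 1 / 16 := by
      have h5 := abs_lt.mp hcon
      nlinarith
    have h6 := hi₀ i₀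
    rw [if_pos rfl] at h6
    unfold stp at h6
    have h7 : 1 / 2 < hh i₀ := by
      by_contra h8
      rw [if_neg h8] at h6
      exact zero_ne_one h6
    have h9 := (abs_le.mp h3).2
    have h10 : τ * S.l i₀ ^ 2 ≤ 1 / 16 := by nlinarith [sq_nonneg (S.l i₀)]
    linarith
  have hdiff : ∀ i, |hh i - stp (hh i)| ≤ 2 * σ := by
    intro i
    have h3 := stp_close (hh i)
    have h4 : (hh i - hh i ^ 2) ^ 2 ≤ σ ^ 2 :=
      (Finset.single_le_sum (f := fun i => (hh i - hh i ^ 2) ^ 2)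
        (fun i _ => by positivity) (Finset.mem_univ i)).trans htr1
    have h5 := abs_le_of_sq_le_sq h4 hσ0.le
    linarith
  have hcoef : ∀ i, ‖(((hh i - stp (hh i) : ℝ)) : ℂ)‖ ≤ (32 * σ + τ) * S.l i ^ 2 := by
    intro i
    rw [Complex.norm_real, Real.norm_eq_abs]
    by_cases hi : |S.l i| < 1 / 4
    · have h3 := hsmall i hi
      have h4 : S.l i ^ 2 ≤ 1 / 16 := by
        have h5 := abs_lt.mp hi
        nlinarith
      have h6 : stp (hh i) = 0 := by
        unfold stp
        rw [if_neg]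
        push Not
        have h9 := (abs_le.mp h3).2
        have h10 : τ * S.l i ^ 2 ≤ 1 / 16 := by nlinarith [sq_nonneg (S.l i)]
        linarith
      rw [h6, sub_zero]
      nlinarith [sq_nonneg (S.l i)]
    · push Not at hi
      have h4 : 1 / 16 ≤ S.l i ^ 2 := by
        rw [← sq_abs]
        nlinarith
      have h5 := hdiff i
      nlinarith
  have hent := S.entLe_sp (fun i => (((hh i - stp (hh i) : ℝ)) : ℂ)) (32 * σ + τ) K
    (by positivity) hK.le hE hcoef
  -- the vector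
  set e : G → ℂ := fun y => ((Real.sqrt (Fintype.card G : ℝ) : ℝ) : ℂ) * S.v i₀ y with he
  have hsq : Real.sqrt (Fintype.card G : ℝ) ^ 2 = (Fintype.card G : ℝ) := Real.sq_sqrt hN.le
  refine ⟨e, S.l i₀, ?_, hli₀, ?_, ?_⟩
  · rw [Fintype.expect_eq_sum_div_card]
    have h3 : ∑ y, ‖e y‖ ^ 2 = (Fintype.card G : ℝ) := by
      calc ∑ y, ‖e y‖ ^ 2 = ∑ y, (Fintype.card G : ℝ) * ‖S.v i₀ y‖ ^ 2 := by
            apply Finset.sum_congr rfl
            intro y _
            rw [he]
            simp only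
            rw [norm_mul, mul_pow, Complex.norm_real, Real.norm_eq_abs, sq_abs, hsq]
        _ = (Fintype.card G : ℝ) := by rw [← Finset.mul_sum, S.norm_v, mul_one]
    rw [h3]
    exact div_self hN.ne'
  · have h3 : e = ((Real.sqrt (Fintype.card G : ℝ) : ℝ) : ℂ) • S.v i₀ := rfl
    rw [h3, Matrix.mulVec_smul, S.eig i₀]
    funext y
    simp only [Pi.smul_apply, smul_eq_mul]
    ring
  · intro y y'
    have h3 : (Fintype.card G : ℂ) * F y y' - e y * conj (e y')
        = (Fintype.card G : ℂ) * S.sp (fun i => (((hh i - stp (hh i) : ℝ)) : ℂ)) y y' := by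
      have h4 : S.sp (fun i => (((hh i - stp (hh i) : ℝ)) : ℂ)) y y'
          = F y y' - S.v i₀ y * conj (S.v i₀ y') := by
        rw [hFsp]
        simp only [SD.sp]
        push_cast
        simp only [sub_mul, Finset.sum_sub_distrib]
        congr 1
        rw [Finset.sum_eq_single i₀]
        · rw [hi₀ i₀, if_pos rfl]
          push_cast
          ring
        · intro j _ hj
          rw [hi₀ j, if_neg hj]
          push_cast
          ring
        · intro hcon
          exact absurd (Finset.mem_univ _) hcon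
      rw [h4, mul_sub]
      congr 1
      rw [he]
      simp only [map_mul, Complex.conj_ofReal]
      have h5 : ((Real.sqrt (Fintype.card G : ℝ) : ℝ) : ℂ) * ((Real.sqrt (Fintype.card G : ℝ) : ℝ) : ℂ)
          = (Fintype.card G : ℂ) := by
        rw [← Complex.ofReal_mul, Real.mul_self_sqrt hN.le]
        simp
      linear_combination (S.v i₀ y * conj (S.v i₀ y')) * h5
    rw [h3, norm_mul, Complex.norm_natCast]
    calc (Fintype.card G : ℝ) * ‖S.sp (fun i => (((hh i - stp (hh i) : ℝ)) : ℂ)) y y'‖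
        ≤ (Fintype.card G : ℝ) * ((32 * σ + τ) * K ^ 2 / (Fintype.card G : ℝ)) :=
          mul_le_mul_of_nonneg_left (hent y y') hN.le
      _ = (32 * σ + τ) * K ^ 2 := by field_simp
      _ ≤ ε := by
          have hK2 : 0 < K ^ 2 := by positivity
          have h6 : 32 * σ * K ^ 2 ≤ ε / 2 := by
            have := mul_le_mul_of_nonneg_right hσ2 hK2.le
            have h7 : ε / (64 * K ^ 2) * K ^ 2 = ε / 64 := by field_simp
            rw [h7] at this
            linarith
          have h8 : τ * K ^ 2 ≤ ε / 2 := by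
            have := mul_le_mul_of_nonneg_right hτ2 hK2.le
            have h7 : ε / (2 * K ^ 2) * K ^ 2 = ε / 2 := by field_simp
            rw [h7] at this
            linarith
          linarith

end Pool.Agent.H65.SQ
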