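import Pool.Agent.H65.SQ.M7

/-!
# Module ONE of the board sq_modules (MP_22a11a_co)
-/

namespace Pool.Agent.H65.SQ

open Finset Polynomial Pool.Agent.H45.SQ
open scoped BigOperators ComplexConjugate ComplexOrder

/-- near constancy transfers a value from a positive proportion to almost everything -/
lemma markov_const {G : Type} [DecidableEq G] (A B : Finset G) (a : G → ℂ) (α : ℂ)
    (κ p t : ℝ) (hA : A.Nonempty) (_hp : 0 < p) (ht : 0 < t) (hBA : B ⊆ A)
    (hB : p * (A.card : ℝ) ≤ B.card) (hval : ∀ k ∈ B, ‖a k - α‖ ≤ t)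
    (hκ : 𝔼 k ∈ A, 𝔼 k' ∈ A, ‖a k - a k'‖ ^ 2 ≤ κ) :
    ((A.filter (fun k => 2 * t < ‖a k - α‖)).card : ℝ) * (p * t ^ 2) ≤ κ * A.card := by
  have hA0 : (0 : ℝ) < A.card := by exact_mod_cast hA.card_pos
  set Z := A.filter (fun k => 2 * t < ‖a k - α‖) with hZ
  have h1 : ∑ k ∈ A, ∑ k' ∈ A, ‖a k - a k'‖ ^ 2 ≤ κ * (A.card : ℝ) ^ 2 := by
    have h2 : 𝔼 k ∈ A, 𝔼 k' ∈ A, ‖a k - a k'‖ ^ 2
        = (∑ k ∈ A, ∑ k' ∈ A, ‖a k - a k'‖ ^ 2) / (A.card : ℝ) ^ 2 := by
      rw [Finset.expect_eq_sum_div_card]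
      have : ∀ k, 𝔼 k' ∈ A, ‖a k - a k'‖ ^ 2 = (∑ k' ∈ A, ‖a k - a k'‖ ^ 2) / (A.card : ℝ) :=
        fun k => Finset.expect_eq_sum_div_card _ _
      simp only [this]
      rw [← Finset.sum_div, div_div, sq]
    rw [h2, div_le_iff₀ (by positivity)] at hκ
    exact hκ
  have h3 : (Z.card : ℝ) * (B.card : ℝ) * t ^ 2 ≤ ∑ k ∈ A, ∑ k' ∈ A, ‖a k - a k'‖ ^ 2 := by
    calc (Z.card : ℝ) * (B.card : ℝ) * t ^ 2 = ∑ _k ∈ Z, ∑ _k' ∈ B, t ^ 2 := by
          simp only [Finset.sum_const, nsmul_eq_mul]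
          ring
      _ ≤ ∑ k ∈ Z, ∑ k' ∈ B, ‖a k - a k'‖ ^ 2 := by
          apply Finset.sum_le_sum
          intro k hk
          apply Finset.sum_le_sum
          intro k' hk'
          have h4 : 2 * t < ‖a k - α‖ := (Finset.mem_filter.mp hk).2
          have h5 := hval k' hk'
          have h6 : ‖a k - α‖ ≤ ‖a k - a k'‖ + ‖a k' - α‖ := by
            have := norm_add_le (a k - a k') (a k' - α)
            rwa [sub_add_sub_cancel] at this
          exact pow_le_pow_left₀ ht.le (by linarith) 2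
      _ ≤ ∑ k ∈ A, ∑ k' ∈ B, ‖a k - a k'‖ ^ 2 :=
          Finset.sum_le_sum_of_subset_of_nonneg (Finset.filter_subset _ _)
            (fun k _ _ => Finset.sum_nonneg (fun _ _ => by positivity))
      _ ≤ ∑ k ∈ A, ∑ k' ∈ A, ‖a k - a k'‖ ^ 2 := by
          apply Finset.sum_le_sum
          intro k _
          exact Finset.sum_le_sum_of_subset_of_nonneg hBA (fun _ _ _ => by positivity)
  have h7 : (Z.card : ℝ) * (p * t ^ 2) * (A.card : ℝ) ≤ (κ * A.card) * (A.card : ℝ) := by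
    calc (Z.card : ℝ) * (p * t ^ 2) * (A.card : ℝ)
        = (Z.card : ℝ) * t ^ 2 * (p * (A.card : ℝ)) := by ring
      _ ≤ (Z.card : ℝ) * t ^ 2 * (B.card : ℝ) := mul_le_mul_of_nonneg_left hB (by positivity)
      _ = (Z.card : ℝ) * (B.card : ℝ) * t ^ 2 := by ring
      _ ≤ κ * (A.card : ℝ) ^ 2 := h3.trans h1
      _ = _ := by ring
  exact le_of_mul_le_mul_right h7 hA0

lemma CutPoly.mono {R a b τ τ' : ℝ} {h : ℝ[X]} (hc : CutPoly R a b τ' h) (hτ : τ' ≤ τ) :
    CutPoly R a b τ h := by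
  obtain ⟨h0, h1, h2, h3⟩ := hc
  refine ⟨h0, h1, fun x hx1 hx2 => (h2 x hx1 hx2).trans ?_, fun x hx1 hx2 => (h3 x hx1 hx2).trans hτ⟩
  exact mul_le_mul_of_nonneg_right hτ (sq_nonneg _)

/-- traces of the sharpened matrix when there is a gap projection of rank one -/
lemma gap_traces {G : Type} [Fintype G] [DecidableEq G] {M P : Matrix G G ℂ} {K R τ c : ℝ}
    {h : ℝ[X]} (hK : 0 ≤ K) (hKR : K ≤ R) (hR : 1 ≤ R) (hcut : CutPoly R (1 / 4) (3 / 4) τ h)
    (hM : M.IsHermitian) (hE : EntLe M K) (hP : Gap M P 1) (hc : 2 * τ * K ^ 2 ≤ c) (hc1 : c ≤ 1)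
    {F : Matrix G G ℂ} (hF : F = aeval M h) :
    ‖(F * F).trace - 1‖ ≤ 3 * c ∧ ‖((F - F * F) * (F - F * F)).trace - 0‖ ≤ 4 * c := by
  obtain ⟨_, _, hlow, hup⟩ := hcut
  have hτ : 0 ≤ τ := by
    have h1 := hlow (1 / 4) (by linarith) le_rfl
    have h2 := abs_nonneg (h.eval (1 / 4))
    nlinarith
  let S := SD.of hM
  obtain ⟨χ, hχ, hcase⟩ := S.gap hP
  set hh : G → ℝ := fun i => h.eval (S.l i) with hhh
  have hFsp : F = S.sp (fun i => ((hh i : ℝ) : ℂ)) := by rw [hF, S.aeval]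
  have hχ1 : ∑ i, χ i = 1 := by
    have h1 := hP.rank
    rw [hχ, S.trace_sp] at h1
    have h2 : ((∑ i, χ i : ℝ) : ℂ) = 1 := by
      push_cast
      rw [h1]
      norm_num
    exact_mod_cast h2
  have hχ01 : ∀ i, χ i = 0 ∨ χ i = 1 := by
    intro i
    rcases hcase i with h1 | h1
    · exact Or.inr h1.1
    · exact Or.inl h1.1
  have hδ : ∀ i, |hh i - χ i| ≤ 2 * τ * S.l i ^ 2 := by
    intro i
    have hl' := abs_le.mp (S.abs_l_le K hK hE i)
    rcases hcase i with ⟨h1, h2, h3⟩ | ⟨h1, h2⟩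
    · rw [h1]
      have h4 := hup (S.l i) h2 (by linarith [hl'.2])
      have h5 : (1 : ℝ) / 2 ≤ S.l i ^ 2 := by nlinarith
      calc |h.eval (S.l i) - 1| ≤ τ := h4
        _ ≤ 2 * τ * S.l i ^ 2 := by nlinarith
    · rw [h1, sub_zero]
      have h2' := abs_le.mp h2
      have h4 := hlow (S.l i) (by linarith [hl'.1]) h2'.2
      have h5 : 0 ≤ S.l i ^ 2 := sq_nonneg _
      calc |h.eval (S.l i)| ≤ τ * S.l i ^ 2 := h4
        _ ≤ 2 * τ * S.l i ^ 2 := by nlinarith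
  have hδsum : ∑ i, |hh i - χ i| ≤ c := by
    calc ∑ i, |hh i - χ i| ≤ ∑ i, 2 * τ * S.l i ^ 2 := Finset.sum_le_sum (fun i _ => hδ i)
      _ = 2 * τ * ∑ i, S.l i ^ 2 := by rw [Finset.mul_sum]
      _ ≤ 2 * τ * K ^ 2 := mul_le_mul_of_nonneg_left (S.sum_sq_le K hK hE) (by linarith)
      _ ≤ c := hc
  have hδ1 : ∀ i, |hh i - χ i| ≤ 1 := by
    intro i
    exact (Finset.single_le_sum (f := fun i => |hh i - χ i|) (fun i _ => abs_nonneg _)
      (Finset.mem_univ i)).trans (hδsum.trans hc1)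
  constructor
  · have e2 : (F * F).trace - 1 = ((∑ i, (hh i ^ 2 - χ i) : ℝ) : ℂ) := by
      rw [hFsp, S.sp_mul, S.trace_sp, Finset.sum_sub_distrib, hχ1]
      push_cast
      congr 1
      apply Finset.sum_congr rfl
      intro i _
      ring
    rw [e2, Complex.norm_real, Real.norm_eq_abs]
    calc |∑ i, (hh i ^ 2 - χ i)| ≤ ∑ i, |hh i ^ 2 - χ i| := Finset.abs_sum_le_sum_abs _ _
      _ ≤ ∑ i, 3 * |hh i - χ i| := by
          apply Finset.sum_le_sum
          intro i _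
          have h1 := hδ1 i
          have e3 : hh i ^ 2 - χ i = (hh i - χ i) * (2 * χ i + (hh i - χ i)) := by
            rcases hχ01 i with h2 | h2 <;> rw [h2] <;> ring
          rw [e3, abs_mul, mul_comm 3]
          apply mul_le_mul_of_nonneg_left _ (abs_nonneg _)
          have h4 := abs_le.mp h1
          rw [abs_le]
          rcases hχ01 i with h2 | h2 <;> rw [h2] at h4 ⊢ <;> constructor <;> linarith
      _ = 3 * ∑ i, |hh i - χ i| := by rw [Finset.mul_sum]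
      _ ≤ 3 * c := by linarith
  · have e2 : ((F - F * F) * (F - F * F)).trace - 0 = ((∑ i, (hh i - hh i ^ 2) ^ 2 : ℝ) : ℂ) := by
      rw [hFsp, S.sp_mul, S.sp_sub, S.sp_mul, S.trace_sp, sub_zero]
      push_cast
      apply Finset.sum_congr rfl
      intro i _
      ring
    rw [e2, Complex.norm_real, Real.norm_eq_abs, abs_of_nonneg (by positivity)]
    calc ∑ i, (hh i - hh i ^ 2) ^ 2 ≤ ∑ i, 4 * |hh i - χ i| := by
          apply Finset.sum_le_sum
          intro i _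
          have h1 := hδ1 i
          have h4 := abs_le.mp h1
          have e3 : hh i - hh i ^ 2 = (hh i - χ i) * (1 - 2 * χ i - (hh i - χ i)) := by
            rcases hχ01 i with h2 | h2 <;> rw [h2] <;> ring
          have h5 : |1 - 2 * χ i - (hh i - χ i)| ≤ 2 := by
            rw [abs_le]
            rcases hχ01 i with h2 | h2 <;> rw [h2] at h4 ⊢ <;> constructor <;> linarith
          rw [e3, ← sq_abs, abs_mul, mul_pow]
          have h6 : |hh i - χ i| ^ 2 ≤ |hh i - χ i| := by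
            rw [sq]
            exact mul_le_of_le_one_right (abs_nonneg _) h1
          have h7 : |1 - 2 * χ i - (hh i - χ i)| ^ 2 ≤ 4 := by
            nlinarith [abs_nonneg (1 - 2 * χ i - (hh i - χ i))]
          nlinarith [abs_nonneg (hh i - χ i), sq_nonneg (|hh i - χ i|)]
      _ = 4 * ∑ i, |hh i - χ i| := by rw [Finset.mul_sum]
      _ ≤ 4 * c := by linarith

lemma mem_hs {G : Type} [AddCommGroup G] [Fintype G] [Module (ZMod 2) G]
    (H : Submodule (ZMod 2) G) (x : G) : x ∈ hs H ↔ x ∈ H := by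
  classical
  unfold hs
  simp

theorem one (hCUTP : T_CUTP) : T_ONE := by
  classical
  intro K ε hK hε
  obtain ⟨τ, τ₂, hτ, hτ₂, hM7⟩ := m7 K ε hK hε
  set c : ℝ := min 1 (τ₂ / 8) with hcdef
  have hc0 : 0 < c := by rw [hcdef]; positivity
  have hc1 : c ≤ 1 := min_le_left _ _
  have hc2 : c ≤ τ₂ / 8 := min_le_right _ _
  set τ' : ℝ := min τ (c / (2 * K ^ 2)) with hτ'
  have hτ'0 : 0 < τ' := by rw [hτ']; positivity
  have hτ'1 : τ' ≤ τ := min_le_left _ _
  have hτ'2 : 2 * τ' * K ^ 2 ≤ c := by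
    have h1 : τ' ≤ c / (2 * K ^ 2) := min_le_right _ _
    rw [le_div_iff₀ (by positivity)] at h1
    linarith
  set R : ℝ := max K 1 with hR
  have hKR : K ≤ R := le_max_left _ _
  have hR1 : 1 ≤ R := le_max_right _ _
  obtain ⟨h, hcut⟩ := hCUTP R (1 / 4) (3 / 4) τ' (by norm_num) (by norm_num) (by linarith) hτ'0
  refine ⟨h, hcut.1, hcut.2.1, ?_⟩
  intro p hp
  refine ⟨p * (ε / 2) * (τ₂ / 2) ^ 2, by positivity, ?_⟩
  intro G _ _ _ _ A H s₀ S F hHerm hE hF hSH hScard hgap hn1 hn2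
  have hMH : ∀ s, (mat A s).IsHermitian := fun s => mat_herm hHerm s
  set B : Finset G := S.image (fun s => s + s₀) with hB
  have hBcard : B.card = S.card :=
    Finset.card_image_of_injective _ (fun x y hxy => add_right_cancel hxy)
  have hBH : B ⊆ hs H := by
    intro k hk
    rw [hB, Finset.mem_image] at hk
    obtain ⟨s, hs1, rfl⟩ := hk
    rw [mem_hs]
    exact hSH s hs1
  have hBback : ∀ k ∈ B, s₀ + k ∈ S := by
    intro k hk
    rw [hB, Finset.mem_image] at hk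
    obtain ⟨s, hs1, rfl⟩ := hk
    have : s₀ + (s + s₀) = s := by
      have h2 : s₀ + (s + s₀) = s + (s₀ + s₀) := by abel
      rw [h2, add_self_G, add_zero]
    rw [this]
    exact hs1
  have hHne : (hs H).Nonempty := ⟨0, (mem_hs H 0).mpr H.zero_mem⟩
  have hH0 : (0 : ℝ) < (hs H).card := by exact_mod_cast hHne.card_pos
  have hpB : p * ((hs H).card : ℝ) ≤ B.card := by rw [hBcard]; exact hScard
  have htr : ∀ k ∈ B, ‖(F (s₀ + k) * F (s₀ + k)).trace - 1‖ ≤ τ₂ / 2 ∧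
      ‖((F (s₀ + k) - F (s₀ + k) * F (s₀ + k)) *
        (F (s₀ + k) - F (s₀ + k) * F (s₀ + k))).trace - 0‖ ≤ τ₂ / 2 := by
    intro k hk
    obtain ⟨P, hP⟩ := hgap (s₀ + k) (hBback k hk)
    have h1 := gap_traces hK.le hKR hR1 hcut (hMH (s₀ + k)) (hE (s₀ + k)) hP hτ'2 hc1 (hF (s₀ + k))
    exact ⟨h1.1.trans (by linarith), h1.2.trans (by linarith)⟩
  have hbad1 := markov_const (hs H) B (fun k => (F (s₀ + k) * F (s₀ + k)).trace) 1
    (p * (ε / 2) * (τ₂ / 2) ^ 2) p (τ₂ / 2) hHne hp (by positivity) hBH hpB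
    (fun k hk => (htr k hk).1) hn1
  have hbad2 := markov_const (hs H) B (fun k => ((F (s₀ + k) - F (s₀ + k) * F (s₀ + k)) *
        (F (s₀ + k) - F (s₀ + k) * F (s₀ + k))).trace) 0
    (p * (ε / 2) * (τ₂ / 2) ^ 2) p (τ₂ / 2) hHne hp (by positivity) hBH hpB
    (fun k hk => (htr k hk).2) hn2
  set Z1 := (hs H).filter (fun k => 2 * (τ₂ / 2) < ‖(F (s₀ + k) * F (s₀ + k)).trace - 1‖) with hZ1
  set Z2 := (hs H).filter (fun k => 2 * (τ₂ / 2) < ‖((F (s₀ + k) - F (s₀ + k) * F (s₀ + k)) *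
        (F (s₀ + k) - F (s₀ + k) * F (s₀ + k))).trace - 0‖) with hZ2
  have hq : 0 < p * (τ₂ / 2) ^ 2 := by positivity
  have hb1 : (Z1.card : ℝ) ≤ ε / 2 * (hs H).card := by
    have h1 : (Z1.card : ℝ) * (p * (τ₂ / 2) ^ 2) ≤ (ε / 2 * (hs H).card) * (p * (τ₂ / 2) ^ 2) := by
      calc _ ≤ _ := hbad1
        _ = _ := by ring
    exact le_of_mul_le_mul_right h1 hq
  have hb2 : (Z2.card : ℝ) ≤ ε / 2 * (hs H).card := by
    have h1 : (Z2.card : ℝ) * (p * (τ₂ / 2) ^ 2) ≤ (ε / 2 * (hs H).card) * (p * (τ₂ / 2) ^ 2) := by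
      calc _ ≤ _ := hbad2
        _ = _ := by ring
    exact le_of_mul_le_mul_right h1 hq
  set T0 : Finset G := hs H \ (Z1 ∪ Z2) with hT0
  set T : Finset G := T0.image (fun k => s₀ + k) with hT
  have hTcard : T.card = T0.card :=
    Finset.card_image_of_injective _ (fun x y hxy => add_left_cancel hxy)
  have hT0card : (1 - ε) * ((hs H).card : ℝ) ≤ T0.card := by
    have h1 : (hs H).card ≤ T0.card + (Z1.card + Z2.card) := by
      have h2 : (hs H).card ≤ T0.card + (Z1 ∪ Z2).card := by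
        have h3 := Finset.card_le_card_sdiff_add_card (s := hs H) (t := Z1 ∪ Z2)
        exact h3
      have h4 := Finset.card_union_le Z1 Z2
      omega
    have h5 : ((hs H).card : ℝ) ≤ T0.card + (Z1.card + Z2.card) := by exact_mod_cast h1
    linarith
  -- good degrees
  have hgood : ∀ s ∈ T, ∃ (e : G → ℂ) (l : ℝ), 𝔼 y, ‖e y‖ ^ 2 = 1 ∧ 1 / 4 ≤ |l| ∧
        (mat A s).mulVec e = (fun y => (l : ℂ) * e y) ∧
        ∀ y y', ‖(Fintype.card G : ℂ) * F s y y' - e y * conj (e y')‖ ≤ ε := by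
    intro s hs1
    rw [hT, Finset.mem_image] at hs1
    obtain ⟨k, hk, rfl⟩ := hs1
    rw [hT0, Finset.mem_sdiff, Finset.mem_union, not_or] at hk
    obtain ⟨hkH, hk1, hk2⟩ := hk
    have g1 : ‖(F (s₀ + k) * F (s₀ + k)).trace - 1‖ ≤ τ₂ := by
      by_contra hcon
      push Not at hcon
      apply hk1
      rw [hZ1, Finset.mem_filter]
      exact ⟨hkH, by linarith⟩
    have g2 : ‖((F (s₀ + k) - F (s₀ + k) * F (s₀ + k)) *
        (F (s₀ + k) - F (s₀ + k) * F (s₀ + k))).trace - 0‖ ≤ τ₂ := by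
      by_contra hcon
      push Not at hcon
      apply hk2
      rw [hZ2, Finset.mem_filter]
      exact ⟨hkH, by linarith⟩
    refine hM7 R h hKR hR1 (CutPoly.mono hcut hτ'1) G (mat A (s₀ + k)) (F (s₀ + k)) (hMH _)
      (hE _) (hF _) ?_ ?_
    · rw [sub_zero] at g2
      exact (Complex.re_le_norm _).trans g2
    · have h1 := Complex.abs_re_le_norm ((F (s₀ + k) * F (s₀ + k)).trace - 1)
      rw [Complex.sub_re, Complex.one_re] at h1
      exact h1.trans g1
  choose! e l h1 h2 h3 h4 using hgood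
  refine ⟨fun s => if s ∈ T then e s else 0, T, ?_, ?_, ?_, ?_⟩
  · intro s hs1
    rw [hT, Finset.mem_image] at hs1
    obtain ⟨k, hk, rfl⟩ := hs1
    have hkH : k ∈ hs H := (Finset.mem_sdiff.mp hk).1
    have e1 : s₀ + k + s₀ = k := by
      have e2 : s₀ + k + s₀ = k + (s₀ + s₀) := by abel
      rw [e2, add_self_G, add_zero]
    rw [e1]
    exact (mem_hs H k).mp hkH
  · rw [hTcard]
    exact hT0card
  · intro s hs1
    simp only [if_neg hs1]
  · intro s hs1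
    simp only [if_pos hs1]
    exact ⟨h1 s hs1, ⟨l s, h2 s hs1, h3 s hs1⟩, h4 s hs1⟩

end Pool.Agent.H65.SQ
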