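import Pool.Agent.H65.SQ.Spec

/-!
# Modules SHRP and EIG of the board sq_modules (MP_22a11a_co)
-/

namespace Pool.Agent.H65.SQ

open Finset Polynomial Pool.Agent.H45.SQ
open scoped BigOperators ComplexConjugate ComplexOrder

theorem shrp : T_SHRP := by
  intro G _ _ _ _ M P D K R τ h hK hKR hR hcut hM hE hP
  let S := SD.of hM
  obtain ⟨χ, hχ, hcase⟩ := S.gap hP
  obtain ⟨_, _, hlow, hup⟩ := hcut
  have hτ : 0 ≤ τ := by
    have h1 := hlow (1 / 4) (by linarith) le_rfl
    have h2 := abs_nonneg (h.eval (1 / 4))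
    nlinarith
  have e1 : aeval M h - P = S.sp (fun i => ((h.eval (S.l i) - χ i : ℝ) : ℂ)) := by
    rw [S.aeval, hχ, S.sp_sub]
    congr 1
    funext i
    push_cast
    rfl
  rw [e1]
  apply S.entLe_sp _ (2 * τ) K (by linarith) hK hE
  intro i
  rw [Complex.norm_real, Real.norm_eq_abs]
  have hl := S.abs_l_le K hK hE i
  have hl' := abs_le.mp hl
  rcases hcase i with ⟨h1, h2, h3⟩ | ⟨h1, h2⟩
  · rw [h1]
    have h4 := hup (S.l i) h2 (by linarith [hl'.2])
    have h5 : (1 : ℝ) / 2 ≤ S.l i ^ 2 := by nlinarith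
    calc |h.eval (S.l i) - 1| ≤ τ := h4
      _ ≤ 2 * τ * S.l i ^ 2 := by nlinarith
  · rw [h1, sub_zero]
    have h2' := abs_le.mp h2
    have h4 := hlow (S.l i) (by linarith [hl'.1]) h2'.2
    have h5 : 0 ≤ S.l i ^ 2 := sq_nonneg _
    calc |h.eval (S.l i)| ≤ τ * S.l i ^ 2 := h4
      _ ≤ 2 * τ * S.l i ^ 2 := by nlinarith

section eig
variable {G : Type} [AddCommGroup G] [Fintype G] [DecidableEq G] [Module (ZMod 2) G]

omit [Fintype G] [DecidableEq G] in
lemma add_self_G (x : G) : x + x = 0 := by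
  rw [← two_smul (ZMod 2) x]
  have : (2 : ZMod 2) = 0 := by decide
  rw [this, zero_smul]

lemma mat_herm {L : Fam G} (hL : Herm L) (s : G) : (mat L s).IsHermitian := by
  ext y y'
  rw [Matrix.conjTranspose_apply]
  simp only [mat, RCLike.star_def, map_mul, map_inv₀, map_natCast]
  congr 1
  rw [hL (y' + y) y' (y' + s)]
  have e1 : y' + (y' + y) = y := by rw [← add_assoc, add_self_G, zero_add]
  have e2 : y' + s + (y' + y) = y + s := by
    have : y' + s + (y' + y) = (y' + y') + (y + s) := by abel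
    rw [this, add_self_G, zero_add]
  rw [e1, e2, add_comm y' y]

end eig

lemma cs_norm {G : Type} [Fintype G] (a b : G → ℂ) :
    ‖∑ y, a y * b y‖ ^ 2 ≤ (∑ y, ‖a y‖ ^ 2) * ∑ y, ‖b y‖ ^ 2 := by
  have h1 : ‖∑ y, a y * b y‖ ≤ ∑ y, ‖a y‖ * ‖b y‖ := by
    refine (norm_sum_le _ _).trans (le_of_eq ?_)
    apply Finset.sum_congr rfl
    intro y _
    rw [norm_mul]
  calc ‖∑ y, a y * b y‖ ^ 2 ≤ (∑ y, ‖a y‖ * ‖b y‖) ^ 2 :=
        pow_le_pow_left₀ (norm_nonneg _) h1 2
    _ ≤ _ := Finset.sum_mul_sq_le_sq_mul_sq _ _ _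

theorem eig : T_EIG := by
  intro G _ _ _ _ f L Λ K s e l hDom hHerm hE hl heig he
  have hN : (0 : ℝ) < (Fintype.card G : ℝ) := by exact_mod_cast Fintype.card_pos
  have hNC : (Fintype.card G : ℂ) ≠ 0 := by exact_mod_cast hN.ne'
  have hM := mat_herm hHerm s
  set M := mat L s with hMdef
  have he2 : ∑ y, ‖e y‖ ^ 2 ≤ (Fintype.card G : ℝ) := by
    have h := he
    rw [Fintype.expect_eq_sum_div_card, div_le_iff₀ hN, one_mul] at h
    exact h
  have hl0 : (0 : ℝ) < |l| := by linarith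
  refine ⟨fun φ => ?_, fun y => ?_⟩
  · -- `l ⟨e, φ⟩ = ⟨e, M φ⟩`
    have h1 : (l : ℂ) * ∑ y, conj (e y) * φ y = ∑ y, conj (e y) * M.mulVec φ y := by
      have h2 : ∀ y, (l : ℂ) * conj (e y) = conj (M.mulVec e y) := by
        intro y
        rw [heig]
        simp
      calc (l : ℂ) * ∑ y, conj (e y) * φ y = ∑ y, conj (M.mulVec e y) * φ y := by
            rw [Finset.mul_sum]
            apply Finset.sum_congr rfl
            intro y _
            rw [← h2]; ring
        _ = ∑ y, ∑ y', conj (M y y') * conj (e y') * φ y := by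
            apply Finset.sum_congr rfl
            intro y _
            rw [Matrix.mulVec, dotProduct, map_sum, Finset.sum_mul]
            apply Finset.sum_congr rfl
            intro y' _
            rw [map_mul]
        _ = ∑ y', ∑ y, conj (M y y') * conj (e y') * φ y := Finset.sum_comm
        _ = ∑ y, conj (e y) * M.mulVec φ y := by
            apply Finset.sum_congr rfl
            intro y' _
            rw [Matrix.mulVec, dotProduct, Finset.mul_sum]
            apply Finset.sum_congr rfl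
            intro y _
            have h3 : conj (M y y') = M y' y := by
              have h4 := congrFun (congrFun hM y') y
              rw [Matrix.conjTranspose_apply] at h4
              exact h4
            rw [h3]; ring
    have h3 : |l| ^ 2 * ‖∑ y, conj (e y) * φ y‖ ^ 2
        ≤ (Fintype.card G : ℝ) * (Λ * qf (mat (rho f) s) φ) := by
      calc |l| ^ 2 * ‖∑ y, conj (e y) * φ y‖ ^ 2 = ‖∑ y, conj (e y) * M.mulVec φ y‖ ^ 2 := by
            rw [← h1, norm_mul, mul_pow, Complex.norm_real, Real.norm_eq_abs]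
        _ ≤ (∑ y, ‖conj (e y)‖ ^ 2) * ∑ y, ‖M.mulVec φ y‖ ^ 2 := cs_norm _ _
        _ ≤ (Fintype.card G : ℝ) * (Λ * qf (mat (rho f) s) φ) := by
            have h5 : ∑ y, ‖conj (e y)‖ ^ 2 = ∑ y, ‖e y‖ ^ 2 := by
              apply Finset.sum_congr rfl
              intro y _
              rw [RCLike.norm_conj]
            rw [h5]
            exact mul_le_mul he2 (hDom s φ) (by positivity) hN.le
    have h4 : ‖∑ y, conj (e y) * φ y‖ ^ 2
        ≤ 16 * ((Fintype.card G : ℝ) * (Λ * qf (mat (rho f) s) φ)) := by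
      have h5 : (1 : ℝ) / 16 ≤ |l| ^ 2 := by nlinarith
      have h6 : (0 : ℝ) ≤ ‖∑ y, conj (e y) * φ y‖ ^ 2 := by positivity
      nlinarith
    rw [Fintype.expect_eq_sum_div_card, norm_div, div_pow, Complex.norm_natCast,
      div_le_iff₀ (by positivity)]
    calc ‖∑ y, conj (e y) * φ y‖ ^ 2
        ≤ 16 * ((Fintype.card G : ℝ) * (Λ * qf (mat (rho f) s) φ)) := h4
      _ = 16 * Λ * ((Fintype.card G : ℝ)⁻¹ * qf (mat (rho f) s) φ) * (Fintype.card G : ℝ) ^ 2 := by
          field_simp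
  · have hK : 0 ≤ K := by
      have h1 := hE y y
      have h2 : 0 ≤ K / (Fintype.card G : ℝ) := (norm_nonneg _).trans h1
      have h3 := mul_nonneg h2 hN.le
      rwa [div_mul_cancel₀ _ hN.ne'] at h3
    have h1 : (l : ℂ) * e y = ∑ y', M y y' * e y' := by
      have := congrFun heig y
      rw [← this]
      rfl
    have h2 : |l| ^ 2 * ‖e y‖ ^ 2 ≤ K ^ 2 := by
      calc |l| ^ 2 * ‖e y‖ ^ 2 = ‖∑ y', M y y' * e y'‖ ^ 2 := by
            rw [← h1, norm_mul, mul_pow, Complex.norm_real, Real.norm_eq_abs]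
        _ ≤ (∑ y', ‖M y y'‖ ^ 2) * ∑ y', ‖e y'‖ ^ 2 := cs_norm _ _
        _ ≤ (K ^ 2 / (Fintype.card G : ℝ)) * (Fintype.card G : ℝ) := by
            apply mul_le_mul _ he2 (by positivity) (by positivity)
            calc ∑ y', ‖M y y'‖ ^ 2 ≤ ∑ _y' : G, (K / (Fintype.card G : ℝ)) ^ 2 :=
                  Finset.sum_le_sum (fun y' _ => pow_le_pow_left₀ (norm_nonneg _) (hE y y') 2)
              _ = K ^ 2 / (Fintype.card G : ℝ) := by
                  rw [Finset.sum_const, nsmul_eq_mul, Finset.card_univ]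
                  field_simp
        _ = K ^ 2 := by field_simp
    have h3 : ‖e y‖ ^ 2 ≤ (4 * K) ^ 2 := by
      have h5 : (1 : ℝ) / 16 ≤ |l| ^ 2 := by nlinarith
      have h6 : (0 : ℝ) ≤ ‖e y‖ ^ 2 := by positivity
      nlinarith
    exact le_of_sq_le_sq h3 (by linarith)

end Pool.Agent.H65.SQ
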