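import Mathlib

/-!
# 99 percent cocycles are close to exact cocycles (step 8d for MP_22a11a_co, proof of helper45)

`H` a finite abelian group, `A` any abelian group, `Φ : H → H → A` satisfies the cocycle relation
at all but `ε * |H|^3` triples, `40 * ε < 1`.  Then `Φ` agrees with an exact cocycle plus a
coboundary at all but `20 * ε * |H|^2` pairs.
-/

namespace Pool.Agent.H65.SQ

open Finset

/-- the indicator of the failure of `p` -/
noncomputable def ind (p : Prop) : ℝ := by classical exact if p then 0 else 1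

lemma ind_of {p : Prop} (h : p) : ind p = 0 := by
  unfold ind
  exact if_pos h

lemma ind_not {p : Prop} (h : ¬ p) : ind p = 1 := by
  unfold ind
  exact if_neg h

lemma ind_nonneg (p : Prop) : 0 ≤ ind p := by
  by_cases h : p
  · rw [ind_of h]
  · rw [ind_not h]; exact zero_le_one

lemma ind_le_one (p : Prop) : ind p ≤ 1 := by
  by_cases h : p
  · rw [ind_of h]; exact zero_le_one
  · rw [ind_not h]

lemma of_ind_lt {p : Prop} (h : ind p < 1) : p := by
  by_contra hp
  rw [ind_not hp] at h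
  exact lt_irrefl _ h

lemma ind_mono {p q : Prop} (h : p → q) : ind q ≤ ind p := by
  by_cases hp : p
  · rw [ind_of (h hp)]; exact ind_nonneg _
  · rw [ind_not hp]; exact ind_le_one _

lemma ind_le2 {p q r : Prop} (h : p → q → r) : ind r ≤ ind p + ind q := by
  by_cases hp : p
  · have := ind_mono (h hp)
    linarith [ind_nonneg p]
  · rw [ind_not hp]
    linarith [ind_nonneg q, ind_le_one r]

lemma ind_le4 {p q r s t : Prop} (h : p → q → r → s → t) :
    ind t ≤ ind p + ind q + ind r + ind s := by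
  by_cases hp : p
  · by_cases hq : q
    · have := ind_le2 (h hp hq)
      linarith [ind_nonneg p, ind_nonneg q]
    · rw [ind_not hq]
      linarith [ind_nonneg p, ind_nonneg r, ind_nonneg s, ind_le_one t]
  · rw [ind_not hp]
    linarith [ind_nonneg q, ind_nonneg r, ind_nonneg s, ind_le_one t]

lemma ind_le5 {p q r s u t : Prop} (h : p → q → r → s → u → t) :
    ind t ≤ ind p + ind q + ind r + ind s + ind u := by
  by_cases hp : p
  · have := ind_le4 (h hp)
    linarith [ind_nonneg p]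
  · rw [ind_not hp]
    linarith [ind_nonneg q, ind_nonneg r, ind_nonneg s, ind_nonneg u, ind_le_one t]

/-- averaging -/
lemma exists_le_avg {Ω : Type*} [Fintype Ω] [Nonempty Ω] (f : Ω → ℝ) (B : ℝ)
    (h : ∑ ω, f ω ≤ (Fintype.card Ω : ℝ) * B) : ∃ ω, f ω ≤ B := by
  by_contra hn
  push Not at hn
  have h1 : ∑ _ω : Ω, B < ∑ ω, f ω := by
    apply Finset.sum_lt_sum_of_nonempty Finset.univ_nonempty
    intro i _
    exact hn i
  rw [Finset.sum_const, nsmul_eq_mul, Finset.card_univ] at h1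
  linarith

section
variable {H : Type*} [AddCommGroup H] [Fintype H]

lemma sum3_comp (F : H → H → H → ℝ) (e1 : H ≃ H) (e2 : H → H ≃ H) (s : H → H → H) :
    ∑ a, ∑ b, ∑ x, F (e1 a) (e2 a b) (x + s a b) = ∑ a, ∑ b, ∑ x, F a b x := by
  have h1 : ∀ a b, ∑ x, F (e1 a) (e2 a b) (x + s a b) = ∑ x, F (e1 a) (e2 a b) x := fun a b =>
    Equiv.sum_comp (Equiv.addRight (s a b)) (fun x => F (e1 a) (e2 a b) x)
  simp only [h1]
  have h2 : ∀ a, ∑ b, ∑ x, F (e1 a) (e2 a b) x = ∑ b, ∑ x, F (e1 a) b x := fun a =>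
    Equiv.sum_comp (e2 a) (fun b => ∑ x, F (e1 a) b x)
  simp only [h2]
  exact Equiv.sum_comp e1 (fun a => ∑ b, ∑ x, F a b x)

variable {A : Type*} [AddCommGroup A]

/-- the cocycle relation at a triple -/
def CocRel (Φ : H → H → A) (x y z : H) : Prop :=
  Φ x y + Φ (x + y) z = Φ y z + Φ x (y + z)

/-- the auxiliary function `G_y^r (x)` -/
def GG (Φ : H → H → A) (y r x : H) : A := Φ r x + Φ (y - r) (x + r)

/-- the constant in the comparison of `G_y^r` and `G_y^{r'}` -/
def kap (Φ : H → H → A) (y r r' : H) : A := Φ (r' - r) r - Φ (y - r') (r' - r)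

/-- the constant in the additivity relation -/
def lam (Φ : H → H → A) (y z r r' : H) : A :=
  Φ r' r + Φ (y - r') (z - r) + Φ r' (z - r) - Φ (z - r) r'

omit [Fintype H] in
lemma stepA_alg (Φ : H → H → A) (y r r' x : H)
    (h1 : CocRel Φ (r' - r) r x) (h2 : CocRel Φ (y - r') (r' - r) (x + r)) :
    GG Φ y r x - GG Φ y r' x = kap Φ y r r' := by
  unfold CocRel at h1 h2
  unfold GG kap
  have e1 : r' - r + r = r' := by abel
  have e2 : y - r' + (r' - r) = y - r := by abel
  have e3 : r' - r + (x + r) = x + r' := by abel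
  have e4 : r + x = x + r := by abel
  rw [e1, e4] at h1
  rw [e2, e3] at h2
  have a1 : Φ r' x = Φ r x + Φ (r' - r) (x + r) - Φ (r' - r) r := by
    rw [← h1]; abel
  have a2 : Φ (y - r) (x + r) = Φ (r' - r) (x + r) + Φ (y - r') (x + r') - Φ (y - r') (r' - r) := by
    rw [← h2]; abel
  rw [a1, a2]
  abel

omit [Fintype H] in
lemma stepB_alg (Φ : H → H → A) (y z r r' x : H)
    (h1 : CocRel Φ r' r x) (h2 : CocRel Φ (y - r') (z - r) (x + (r + r')))
    (h3 : CocRel Φ r' (z - r) (x + r)) (h4 : CocRel Φ (z - r) r' (x + r)) :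
    GG Φ z r x + GG Φ y r' (x + z) - GG Φ (y + z) (r + r') x = lam Φ y z r r' := by
  unfold CocRel at h1 h2 h3 h4
  unfold GG lam
  have e1 : r' + r = r + r' := by abel
  have e2 : y - r' + (z - r) = y + z - (r + r') := by abel
  have e3 : z - r + (x + (r + r')) = x + z + r' := by abel
  have e4 : r + x = x + r := by abel
  have e5 : z - r + (x + r) = x + z := by abel
  have e6 : r' + (x + r) = x + (r + r') := by abel
  have e7 : r' + (z - r) = z - r + r' := by abel
  rw [e1, e4] at h1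
  rw [e2, e3] at h2
  rw [e5, e7] at h3
  rw [e6] at h4
  have a1 : Φ (r + r') x = Φ r x + Φ r' (x + r) - Φ r' r := by
    rw [← h1]; abel
  have a2 : Φ (y + z - (r + r')) (x + (r + r'))
      = Φ (z - r) (x + (r + r')) + Φ (y - r') (x + z + r') - Φ (y - r') (z - r) := by
    rw [← h2]; abel
  have a3 : Φ (z - r) (x + r) = Φ r' (z - r) + Φ (z - r + r') (x + r) - Φ r' (x + z) := by
    rw [h3]; abel
  have a4 : Φ (z - r) (x + (r + r')) = Φ (z - r) r' + Φ (z - r + r') (x + r) - Φ r' (x + r) := by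
    rw [h4]; abel
  rw [a1, a2, a3, a4]
  abel

/-- total failure of the cocycle relation -/
noncomputable def fail (Φ : H → H → A) : ℝ := ∑ x, ∑ y, ∑ z, ind (CocRel Φ x y z)

lemma stepA (Φ : H → H → A) (y : H) :
    ∑ r, ∑ r', ∑ x, ind (GG Φ y r x - GG Φ y r' x = kap Φ y r r') ≤ 2 * fail Φ := by
  have h1 : ∑ r, ∑ r', ∑ x, ind (CocRel Φ (r' - r) r x) = fail Φ := by
    have : ∀ r : H, ∑ r', ∑ x, ind (CocRel Φ (r' - r) r x) = ∑ k, ∑ x, ind (CocRel Φ k r x) :=
      fun r => Equiv.sum_comp (Equiv.subRight r) (fun k => ∑ x, ind (CocRel Φ k r x))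
    rw [Finset.sum_congr rfl (fun r _ => this r), Finset.sum_comm]
    rfl
  have h2 : ∑ r, ∑ r', ∑ x, ind (CocRel Φ (y - r') (r' - r) (x + r)) = fail Φ := by
    rw [Finset.sum_comm]
    exact sum3_comp (fun a b c => ind (CocRel Φ a b c)) (Equiv.subLeft y)
      (fun r' => Equiv.subLeft r') (fun _ r => r)
  calc ∑ r, ∑ r', ∑ x, ind (GG Φ y r x - GG Φ y r' x = kap Φ y r r')
      ≤ ∑ r, ∑ r', ∑ x, (ind (CocRel Φ (r' - r) r x)
          + ind (CocRel Φ (y - r') (r' - r) (x + r))) := by
        apply Finset.sum_le_sum; intro r _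
        apply Finset.sum_le_sum; intro r' _
        apply Finset.sum_le_sum; intro x _
        exact ind_le2 (stepA_alg Φ y r r' x)
    _ = 2 * fail Φ := by
        simp only [Finset.sum_add_distrib]
        rw [h1, h2]; ring

lemma stepB (Φ : H → H → A) (y z : H) :
    ∑ r, ∑ r', ∑ x, ind (GG Φ z r x + GG Φ y r' (x + z) - GG Φ (y + z) (r + r') x
      = lam Φ y z r r') ≤ 4 * fail Φ := by
  have h1 : ∑ r, ∑ r', ∑ x, ind (CocRel Φ r' r x) = fail Φ := by
    rw [Finset.sum_comm]; rfl
  have h2 : ∑ r, ∑ r', ∑ x, ind (CocRel Φ (y - r') (z - r) (x + (r + r'))) = fail Φ := by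
    rw [Finset.sum_comm]
    exact sum3_comp (fun a b c => ind (CocRel Φ a b c)) (Equiv.subLeft y)
      (fun _ => Equiv.subLeft z) (fun r' r => r + r')
  have h3 : ∑ r, ∑ r', ∑ x, ind (CocRel Φ r' (z - r) (x + r)) = fail Φ := by
    rw [Finset.sum_comm]
    exact sum3_comp (fun a b c => ind (CocRel Φ a b c)) (Equiv.refl H)
      (fun _ => Equiv.subLeft z) (fun _ r => r)
  have h4 : ∑ r, ∑ r', ∑ x, ind (CocRel Φ (z - r) r' (x + r)) = fail Φ :=
    sum3_comp (fun a b c => ind (CocRel Φ a b c)) (Equiv.subLeft z)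
      (fun _ => Equiv.refl H) (fun r _ => r)
  calc ∑ r, ∑ r', ∑ x, ind (GG Φ z r x + GG Φ y r' (x + z) - GG Φ (y + z) (r + r') x
      = lam Φ y z r r')
      ≤ ∑ r, ∑ r', ∑ x, (ind (CocRel Φ r' r x)
          + ind (CocRel Φ (y - r') (z - r) (x + (r + r')))
          + ind (CocRel Φ r' (z - r) (x + r)) + ind (CocRel Φ (z - r) r' (x + r))) := by
        apply Finset.sum_le_sum; intro r _
        apply Finset.sum_le_sum; intro r' _
        apply Finset.sum_le_sum; intro x _
        exact ind_le4 (stepB_alg Φ y z r r' x)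
    _ = 4 * fail Φ := by
        simp only [Finset.sum_add_distrib]
        rw [h1, h2, h3, h4]; ring

/-- the main theorem: approximate cocycles are close to cocycles -/
theorem coc99_real [Nonempty H] (Φ : H → H → A) (ε : ℝ) (hε : 40 * ε < 1)
    (hΦ : fail Φ ≤ ε * (Fintype.card H : ℝ) ^ 3) :
    ∃ D : H → H → A, (∀ x y z, D x y + D (x + y) z = D y z + D x (y + z)) ∧
      ∃ c : H → A, ∑ y, ∑ z, ind (Φ y z = D y z - c y - c z + c (y + z))
        ≤ 20 * ε * (Fintype.card H : ℝ) ^ 2 := by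
  classical
  set n : ℝ := (Fintype.card H : ℝ) with hn
  have hn0 : 0 < n := by
    rw [hn]; exact_mod_cast Fintype.card_pos
  -- choose r_y
  have hr : ∀ y : H, ∃ r : H, ∑ r', ∑ x, ind (GG Φ y r x - GG Φ y r' x = kap Φ y r r')
      ≤ 2 * ε * n ^ 2 := by
    intro y
    apply exists_le_avg
    have := stepA Φ y
    rw [← hn]
    calc _ ≤ _ := this
      _ ≤ 2 * (ε * n ^ 3) := by linarith
      _ = n * (2 * ε * n ^ 2) := by ring
  choose ρ hρ using hr
  -- the function g_y
  set g : H → H → A := fun y x => GG Φ y (ρ y) x with hg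
  -- constants
  let mu : H → H → H → H → A := fun y z r r' =>
    lam Φ y z r r' + kap Φ z (ρ z) r + kap Φ y (ρ y) r' - kap Φ (y + z) (ρ (y + z)) (r + r')
  have hC : ∀ y z : H, ∑ r, ∑ r', ∑ x, ind (g z x + g y (x + z) - g (y + z) x = mu y z r r')
      ≤ 10 * ε * n ^ 3 := by
    intro y z
    have b1 : ∑ r, ∑ _r' : H, ∑ x, ind (GG Φ z (ρ z) x - GG Φ z r x = kap Φ z (ρ z) r)
        ≤ 2 * ε * n ^ 3 := by
      rw [Finset.sum_comm]
      rw [Finset.sum_const, nsmul_eq_mul, Finset.card_univ, ← hn]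
      calc _ ≤ n * (2 * ε * n ^ 2) := mul_le_mul_of_nonneg_left (hρ z) hn0.le
        _ = _ := by ring
    have b2 : ∑ _r : H, ∑ r', ∑ x, ind (GG Φ y (ρ y) (x + z) - GG Φ y r' (x + z)
        = kap Φ y (ρ y) r') ≤ 2 * ε * n ^ 3 := by
      rw [Finset.sum_const, nsmul_eq_mul, Finset.card_univ, ← hn]
      have : ∀ r' : H, ∑ x, ind (GG Φ y (ρ y) (x + z) - GG Φ y r' (x + z) = kap Φ y (ρ y) r')
          = ∑ x, ind (GG Φ y (ρ y) x - GG Φ y r' x = kap Φ y (ρ y) r') := fun r' =>
        Equiv.sum_comp (Equiv.addRight z)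
          (fun x => ind (GG Φ y (ρ y) x - GG Φ y r' x = kap Φ y (ρ y) r'))
      rw [Finset.sum_congr rfl (fun r' _ => this r')]
      calc _ ≤ n * (2 * ε * n ^ 2) := mul_le_mul_of_nonneg_left (hρ y) hn0.le
        _ = _ := by ring
    have b3 : ∑ r, ∑ r', ∑ x, ind (GG Φ (y + z) (ρ (y + z)) x - GG Φ (y + z) (r + r') x
        = kap Φ (y + z) (ρ (y + z)) (r + r')) ≤ 2 * ε * n ^ 3 := by
      have : ∀ r : H, ∑ r', ∑ x, ind (GG Φ (y + z) (ρ (y + z)) x - GG Φ (y + z) (r + r') x
          = kap Φ (y + z) (ρ (y + z)) (r + r'))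
          = ∑ r', ∑ x, ind (GG Φ (y + z) (ρ (y + z)) x - GG Φ (y + z) r' x
          = kap Φ (y + z) (ρ (y + z)) r') := fun r =>
        Equiv.sum_comp (Equiv.addLeft r) (fun r' => ∑ x, ind (GG Φ (y + z) (ρ (y + z)) x
          - GG Φ (y + z) r' x = kap Φ (y + z) (ρ (y + z)) r'))
      rw [Finset.sum_congr rfl (fun r _ => this r), Finset.sum_const, nsmul_eq_mul,
        Finset.card_univ, ← hn]
      calc _ ≤ n * (2 * ε * n ^ 2) := mul_le_mul_of_nonneg_left (hρ (y + z)) hn0.le
        _ = _ := by ring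
    have b4 := stepB Φ y z
    calc ∑ r, ∑ r', ∑ x, ind (g z x + g y (x + z) - g (y + z) x = mu y z r r')
        ≤ ∑ r, ∑ r', ∑ x, (ind (GG Φ z (ρ z) x - GG Φ z r x = kap Φ z (ρ z) r)
          + ind (GG Φ y (ρ y) (x + z) - GG Φ y r' (x + z) = kap Φ y (ρ y) r')
          + ind (GG Φ (y + z) (ρ (y + z)) x - GG Φ (y + z) (r + r') x
              = kap Φ (y + z) (ρ (y + z)) (r + r'))
          + ind (GG Φ z r x + GG Φ y r' (x + z) - GG Φ (y + z) (r + r') x
              = lam Φ y z r r')) := by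
          apply Finset.sum_le_sum; intro r _
          apply Finset.sum_le_sum; intro r' _
          apply Finset.sum_le_sum; intro x _
          apply ind_le4
          intro h1 h2 h3 h4
          simp only [hg, mu]
          rw [← h1, ← h2, ← h3, ← h4]
          abel
      _ ≤ 10 * ε * n ^ 3 := by
          simp only [Finset.sum_add_distrib]
          linarith
  have hD : ∀ y z : H, ∃ d : A, ∑ x, ind (g z x + g y (x + z) - g (y + z) x = d)
      ≤ 10 * ε * n := by
    intro y z
    obtain ⟨r, hr⟩ := exists_le_avg (fun r => ∑ r', ∑ x,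
      ind (g z x + g y (x + z) - g (y + z) x = mu y z r r')) (10 * ε * n ^ 2) (by
        rw [← hn]
        calc _ ≤ _ := hC y z
          _ = _ := by ring)
    obtain ⟨r', hr'⟩ := exists_le_avg (fun r' => ∑ x,
      ind (g z x + g y (x + z) - g (y + z) x = mu y z r r')) (10 * ε * n) (by
        rw [← hn]
        calc _ ≤ _ := hr
          _ = _ := by ring)
    exact ⟨_, hr'⟩
  choose D hD using hD
  refine ⟨D, ?_, ?_⟩
  · intro y1 y2 y3
    -- find a common x
    have s1 := hD y2 y3
    have s2 := hD y1 (y2 + y3)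
    have s3 := hD (y1 + y2) y3
    have s4 : ∑ x, ind (g y2 (x + y3) + g y1 (x + y3 + y2) - g (y1 + y2) (x + y3) = D y1 y2)
        ≤ 10 * ε * n := by
      have := Equiv.sum_comp (Equiv.addRight y3)
        (fun x => ind (g y2 x + g y1 (x + y2) - g (y1 + y2) x = D y1 y2))
      calc _ = _ := this
        _ ≤ _ := hD y1 y2
    obtain ⟨x, hx⟩ := exists_le_avg (fun x =>
      ind (g y3 x + g y2 (x + y3) - g (y2 + y3) x = D y2 y3)
      + ind (g (y2 + y3) x + g y1 (x + (y2 + y3)) - g (y1 + (y2 + y3)) x = D y1 (y2 + y3))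
      + ind (g y3 x + g (y1 + y2) (x + y3) - g (y1 + y2 + y3) x = D (y1 + y2) y3)
      + ind (g y2 (x + y3) + g y1 (x + y3 + y2) - g (y1 + y2) (x + y3) = D y1 y2))
      (40 * ε) (by
        rw [← hn]
        simp only [Finset.sum_add_distrib]
        calc _ ≤ 10 * ε * n + 10 * ε * n + 10 * ε * n + 10 * ε * n := by
              gcongr
          _ = _ := by ring)
    have i1 := ind_nonneg (g y3 x + g y2 (x + y3) - g (y2 + y3) x = D y2 y3)
    have i2 := ind_nonneg (g (y2 + y3) x + g y1 (x + (y2 + y3)) - g (y1 + (y2 + y3)) x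
      = D y1 (y2 + y3))
    have i3 := ind_nonneg (g y3 x + g (y1 + y2) (x + y3) - g (y1 + y2 + y3) x = D (y1 + y2) y3)
    have i4 := ind_nonneg (g y2 (x + y3) + g y1 (x + y3 + y2) - g (y1 + y2) (x + y3) = D y1 y2)
    have t1 : g y3 x + g y2 (x + y3) - g (y2 + y3) x = D y2 y3 := of_ind_lt (by linarith)
    have t2 : g (y2 + y3) x + g y1 (x + (y2 + y3)) - g (y1 + (y2 + y3)) x = D y1 (y2 + y3) :=
      of_ind_lt (by linarith)
    have t3 : g y3 x + g (y1 + y2) (x + y3) - g (y1 + y2 + y3) x = D (y1 + y2) y3 :=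
      of_ind_lt (by linarith)
    have t4 : g y2 (x + y3) + g y1 (x + y3 + y2) - g (y1 + y2) (x + y3) = D y1 y2 :=
      of_ind_lt (by linarith)
    rw [← t1, ← t2, ← t3, ← t4]
    have e1 : x + (y2 + y3) = x + y3 + y2 := by abel
    have e2 : y1 + (y2 + y3) = y1 + y2 + y3 := by abel
    rw [e1, e2]
    abel
  · -- the comparison
    have hE : ∑ y, ∑ r, ∑ x, ind (GG Φ y r x = Φ (y - r) r + Φ y x) ≤ ε * n ^ 3 := by
      have h1 : ∑ y, ∑ r, ∑ x, ind (CocRel Φ (y - r) r x) = fail Φ := by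
        rw [Finset.sum_comm]
        have : ∀ r : H, ∑ y, ∑ x, ind (CocRel Φ (y - r) r x) = ∑ k, ∑ x, ind (CocRel Φ k r x) :=
          fun r => Equiv.sum_comp (Equiv.subRight r) (fun k => ∑ x, ind (CocRel Φ k r x))
        rw [Finset.sum_congr rfl (fun r _ => this r), Finset.sum_comm]
        rfl
      calc _ ≤ ∑ y, ∑ r, ∑ x, ind (CocRel Φ (y - r) r x) := by
            apply Finset.sum_le_sum; intro y _
            apply Finset.sum_le_sum; intro r _
            apply Finset.sum_le_sum; intro x _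
            apply ind_mono
            intro h
            unfold CocRel at h
            unfold GG
            have e1 : y - r + r = y := by abel
            rw [e1, add_comm r x] at h
            exact h.symm
        _ = fail Φ := h1
        _ ≤ _ := hΦ
    have hF : ∑ y, ∑ r, ∑ x, ind (g y x = Φ y x + (Φ (y - r) r + kap Φ y (ρ y) r))
        ≤ 3 * ε * n ^ 3 := by
      have h2 : ∑ y, ∑ r, ∑ x, ind (GG Φ y (ρ y) x - GG Φ y r x = kap Φ y (ρ y) r)
          ≤ 2 * ε * n ^ 3 := by
        calc _ ≤ ∑ _y : H, 2 * ε * n ^ 2 := Finset.sum_le_sum (fun y _ => hρ y)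
          _ = _ := by
            rw [Finset.sum_const, nsmul_eq_mul, Finset.card_univ, ← hn]; ring
      calc _ ≤ ∑ y, ∑ r, ∑ x, (ind (GG Φ y r x = Φ (y - r) r + Φ y x)
            + ind (GG Φ y (ρ y) x - GG Φ y r x = kap Φ y (ρ y) r)) := by
            apply Finset.sum_le_sum; intro y _
            apply Finset.sum_le_sum; intro r _
            apply Finset.sum_le_sum; intro x _
            apply ind_le2
            intro h1 h2
            simp only [hg]
            rw [← h2, h1]
            abel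
        _ ≤ _ := by
            simp only [Finset.sum_add_distrib]
            linarith
    have hc : ∀ y : H, ∃ c : A, n * ∑ x, ind (g y x = Φ y x + c)
        ≤ ∑ r, ∑ x, ind (g y x = Φ y x + (Φ (y - r) r + kap Φ y (ρ y) r)) := by
      intro y
      obtain ⟨r, hr⟩ := exists_le_avg (fun r => ∑ x, ind (g y x = Φ y x
        + (Φ (y - r) r + kap Φ y (ρ y) r)))
        ((∑ r, ∑ x, ind (g y x = Φ y x + (Φ (y - r) r + kap Φ y (ρ y) r))) / n) (by
          rw [← hn, mul_div_cancel₀ _ hn0.ne'])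
      refine ⟨Φ (y - r) r + kap Φ y (ρ y) r, ?_⟩
      rw [le_div_iff₀ hn0] at hr
      linarith
    choose c hc using hc
    have hc2 : ∑ y, ∑ x, ind (g y x = Φ y x + c y) ≤ 3 * ε * n ^ 2 := by
      have h1 : n * ∑ y, ∑ x, ind (g y x = Φ y x + c y) ≤ 3 * ε * n ^ 3 := by
        rw [Finset.mul_sum]
        exact (Finset.sum_le_sum (fun y _ => hc y)).trans hF
      have h2 : n * ∑ y, ∑ x, ind (g y x = Φ y x + c y) ≤ n * (3 * ε * n ^ 2) := by
        linarith [h1, (by ring : 3 * ε * n ^ 3 = n * (3 * ε * n ^ 2))]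
      exact le_of_mul_le_mul_left h2 hn0
    refine ⟨c, ?_⟩
    have f1 : ∑ y, ∑ z, ∑ x, ind (g z x + g y (x + z) - g (y + z) x = D y z)
        ≤ 10 * ε * n ^ 3 := by
      calc _ ≤ ∑ _y : H, ∑ _z : H, 10 * ε * n := by
            apply Finset.sum_le_sum; intro y _
            apply Finset.sum_le_sum; intro z _
            exact hD y z
        _ = _ := by
            simp only [Finset.sum_const, nsmul_eq_mul, Finset.card_univ, ← hn]; ring
    have f2 : ∑ _y : H, ∑ z, ∑ x, ind (g z x = Φ z x + c z) ≤ 3 * ε * n ^ 3 := by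
      rw [Finset.sum_const, nsmul_eq_mul, Finset.card_univ, ← hn]
      calc _ ≤ n * (3 * ε * n ^ 2) := mul_le_mul_of_nonneg_left hc2 hn0.le
        _ = _ := by ring
    have f3 : ∑ y, ∑ z, ∑ x, ind (g y (x + z) = Φ y (x + z) + c y) ≤ 3 * ε * n ^ 3 := by
      have : ∀ y z : H, ∑ x, ind (g y (x + z) = Φ y (x + z) + c y)
          = ∑ x, ind (g y x = Φ y x + c y) := fun y z =>
        Equiv.sum_comp (Equiv.addRight z) (fun x => ind (g y x = Φ y x + c y))
      simp only [this]
      simp only [Finset.sum_const, nsmul_eq_mul, Finset.card_univ, ← hn]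
      rw [← Finset.mul_sum]
      calc _ ≤ n * (3 * ε * n ^ 2) := mul_le_mul_of_nonneg_left hc2 hn0.le
        _ = _ := by ring
    have f4 : ∑ y, ∑ z, ∑ x, ind (g (y + z) x = Φ (y + z) x + c (y + z)) ≤ 3 * ε * n ^ 3 := by
      have : ∀ y : H, ∑ z, ∑ x, ind (g (y + z) x = Φ (y + z) x + c (y + z))
          = ∑ z, ∑ x, ind (g z x = Φ z x + c z) := fun y =>
        Equiv.sum_comp (Equiv.addLeft y) (fun z => ∑ x, ind (g z x = Φ z x + c z))
      simp only [this]
      rw [Finset.sum_const, nsmul_eq_mul, Finset.card_univ, ← hn]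
      calc _ ≤ n * (3 * ε * n ^ 2) := mul_le_mul_of_nonneg_left hc2 hn0.le
        _ = _ := by ring
    have f5 : ∑ y, ∑ z, ∑ x, ind (CocRel Φ y z x) ≤ ε * n ^ 3 := hΦ
    have key : n * ∑ y, ∑ z, ind (Φ y z = D y z - c y - c z + c (y + z))
        ≤ n * (20 * ε * n ^ 2) := by
      calc n * ∑ y, ∑ z, ind (Φ y z = D y z - c y - c z + c (y + z))
          = ∑ y, ∑ z, ∑ _x : H, ind (Φ y z = D y z - c y - c z + c (y + z)) := by
            simp only [Finset.sum_const, nsmul_eq_mul, Finset.card_univ, ← hn, Finset.mul_sum]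
        _ ≤ ∑ y, ∑ z, ∑ x, (ind (g z x + g y (x + z) - g (y + z) x = D y z)
            + ind (g z x = Φ z x + c z) + ind (g y (x + z) = Φ y (x + z) + c y)
            + ind (g (y + z) x = Φ (y + z) x + c (y + z)) + ind (CocRel Φ y z x)) := by
            apply Finset.sum_le_sum; intro y _
            apply Finset.sum_le_sum; intro z _
            apply Finset.sum_le_sum; intro x _
            apply ind_le5
            intro h1 h2 h3 h4 h5
            unfold CocRel at h5
            rw [← h1, h2, h3, h4]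
            have e1 : Φ y z = Φ z x + Φ y (x + z) - Φ (y + z) x := by
              rw [add_comm x z, ← h5]; abel
            rw [e1]
            abel
        _ ≤ n * (20 * ε * n ^ 2) := by
            simp only [Finset.sum_add_distrib]
            have : n * (20 * ε * n ^ 2) = 20 * ε * n ^ 3 := by ring
            rw [this]
            linarith
    exact le_of_mul_le_mul_left key hn0

end

end Pool.Agent.H65.SQ
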