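import Pool.Agent.H65.SQ.SHRP

/-!
# Module PERT of the board sq_modules (MP_22a11a_co)
-/

namespace Pool.Agent.H65.SQ

open Finset Polynomial Pool.Agent.H45.SQ
open scoped BigOperators ComplexConjugate ComplexOrder

section
variable {G : Type} [Fintype G] [DecidableEq G]

/-- eigenvalues of a projection are `0` or `1` -/
lemma SD.proj_l {P : Matrix G G ℂ} (S : SD P) (hP : P * P = P) (i : G) :
    S.l i = 0 ∨ S.l i = 1 := by
  have h1 : P.mulVec (P.mulVec (S.v i)) = P.mulVec (S.v i) := by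
    rw [Matrix.mulVec_mulVec, hP]
  rw [S.eig i] at h1
  have h2 : (fun y => (S.l i : ℂ) * S.v i y) = (S.l i : ℂ) • S.v i := rfl
  rw [h2, Matrix.mulVec_smul, S.eig i, h2] at h1
  have h3 : (S.l i ^ 2 - S.l i) ^ 2 * ∑ y, ‖S.v i y‖ ^ 2 = 0 := by
    rw [Finset.mul_sum]
    apply Finset.sum_eq_zero
    intro y _
    have h4 := congrFun h1 y
    simp only [Pi.smul_apply, smul_eq_mul] at h4
    have h5 : ((S.l i ^ 2 - S.l i : ℝ) : ℂ) * S.v i y = 0 := by
      push_cast
      linear_combination h4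
    have h6 : ‖((S.l i ^ 2 - S.l i : ℝ) : ℂ) * S.v i y‖ ^ 2 = 0 := by
      rw [h5]; simp
    rw [norm_mul, mul_pow, Complex.norm_real, Real.norm_eq_abs, sq_abs] at h6
    exact h6
  rw [S.norm_v, mul_one] at h3
  have h7 : S.l i * (S.l i - 1) = 0 := by
    have := pow_eq_zero_iff (two_ne_zero) |>.mp h3
    linarith
  rcases mul_eq_zero.mp h7 with h | h
  · exact Or.inl h
  · exact Or.inr (by linarith)

/-- the trace of a projection is its rank -/
lemma trace_eq_rank {P : Matrix G G ℂ} (hP : Proj P) : P.trace = (P.rank : ℂ) := by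
  obtain ⟨hH, hI⟩ := hP
  rw [hH.trace_eq_sum_eigenvalues, hH.rank_eq_card_non_zero_eigs]
  have h01 : ∀ i, hH.eigenvalues i = 0 ∨ hH.eigenvalues i = 1 := fun i =>
    (SD.of hH).proj_l hI i
  have e : ∀ i, ((hH.eigenvalues i : ℝ) : ℂ) = if hH.eigenvalues i ≠ 0 then 1 else 0 := by
    intro i
    rcases h01 i with h | h
    · rw [h]; simp
    · rw [h]; simp
  calc ∑ i, ((hH.eigenvalues i : ℝ) : ℂ) = ∑ i, if hH.eigenvalues i ≠ 0 then (1 : ℂ) else 0 :=
        Finset.sum_congr rfl (fun i _ => e i)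
    _ = _ := by rw [Finset.sum_boole, Fintype.card_subtype]

omit [DecidableEq G] in
lemma rank_le_of_inj {P Q : Matrix G G ℂ} (hP : P * P = P)
    (h : ∀ x : G → ℂ, P.mulVec x = x → Q.mulVec x = 0 → x = 0) : P.rank ≤ Q.rank := by
  unfold Matrix.rank
  let f : LinearMap.range P.mulVecLin →ₗ[ℂ] LinearMap.range Q.mulVecLin :=
    (Q.mulVecLin.rangeRestrict).comp (LinearMap.range P.mulVecLin).subtype
  apply LinearMap.finrank_le_finrank_of_injective (f := f)
  rw [← LinearMap.ker_eq_bot, LinearMap.ker_eq_bot']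
  rintro ⟨x, hx⟩ hfx
  obtain ⟨z, rfl⟩ := hx
  have h1 : Q.mulVec (P.mulVec z) = 0 := by
    have := congrArg Subtype.val hfx
    exact this
  have h2 : P.mulVec (P.mulVec z) = P.mulVec z := by
    rw [Matrix.mulVec_mulVec, hP]
  have h3 := h (P.mulVec z) h2 h1
  exact Subtype.ext h3

omit [DecidableEq G] in
/-- close projections have the same rank -/
lemma rank_le_of_close {P Q : Matrix G G ℂ} (hP : Proj P) (c : ℝ) (hc : c < 1)
    (h : OpLe (P - Q) c) : P.rank ≤ Q.rank := by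
  apply rank_le_of_inj hP.2
  intro x hx hQ
  have h1 := h.2 x
  rw [Matrix.sub_mulVec, hx, hQ, sub_zero] at h1
  have h0 : (0 : ℝ) ≤ ∑ y, ‖x y‖ ^ 2 := by positivity
  have h2 : ∑ y, ‖x y‖ ^ 2 = 0 := by
    have hc2 : c ^ 2 < 1 := by nlinarith [h.1]
    nlinarith
  funext y
  have h3 := (Finset.sum_eq_zero_iff_of_nonneg (fun y _ => by positivity)).mp h2 y
    (Finset.mem_univ y)
  have h4 : ‖x y‖ = 0 := pow_eq_zero_iff (two_ne_zero) |>.mp h3
  simpa using h4

omit [DecidableEq G] in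
lemma OpLe.neg {M : Matrix G G ℂ} {c : ℝ} (h : OpLe M c) : OpLe (-M) c := by
  refine ⟨h.1, fun g => ?_⟩
  have h1 := h.2 g
  simpa [Matrix.neg_mulVec] using h1

omit [DecidableEq G] in
lemma OpLe.sub_comm {M M' : Matrix G G ℂ} {c : ℝ} (h : OpLe (M - M') c) : OpLe (M' - M) c := by
  have := OpLe.neg h
  rwa [neg_sub] at this

omit [DecidableEq G] in
lemma OpLe.mono {M : Matrix G G ℂ} {c c' : ℝ} (h : OpLe M c) (hc : c ≤ c') : OpLe M c' := by
  refine ⟨h.1.trans hc, fun g => (h.2 g).trans ?_⟩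
  exact mul_le_mul_of_nonneg_right (pow_le_pow_left₀ h.1 hc 2) (by positivity)

theorem trace_eq_of_close {P Q : Matrix G G ℂ} (hP : Proj P) (hQ : Proj Q) (c : ℝ) (hc : c < 1)
    (h : OpLe (P - Q) c) : P.trace = Q.trace := by
  rw [trace_eq_rank hP, trace_eq_rank hQ,
    le_antisymm (rank_le_of_close hP c hc h) (rank_le_of_close hQ c hc (OpLe.sub_comm h))]

/-- the real function `1_{x > 1/2}` -/
noncomputable def stp (x : ℝ) : ℝ := if 1 / 2 < x then 1 else 0

lemma stp_sq (x : ℝ) : stp x * stp x = stp x := by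
  unfold stp
  split_ifs <;> norm_num

/-- the spectral projection on the eigenvalues greater than one half -/
noncomputable def SD.up {M : Matrix G G ℂ} (S : SD M) : Matrix G G ℂ :=
  S.sp (fun i => (stp (S.l i) : ℂ))

lemma SD.up_proj {M : Matrix G G ℂ} (S : SD M) : Proj S.up := by
  refine ⟨S.sp_herm _, ?_⟩
  unfold SD.up
  rw [S.sp_mul]
  congr 1
  funext i
  rw [← Complex.ofReal_mul, stp_sq]

lemma SD.up_comm {M : Matrix G G ℂ} (S : SD M) : S.up * M = M * S.up := by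
  have h : S.up * S.sp (fun i => (S.l i : ℂ)) = S.sp (fun i => (S.l i : ℂ)) * S.up := by
    unfold SD.up
    rw [S.sp_mul, S.sp_mul]
    congr 1
    funext i
    ring
  rwa [← S.eq_sp] at h

lemma SD.sub_up {M : Matrix G G ℂ} (S : SD M) (ε : ℝ) (hε : 0 ≤ ε)
    (h : ∀ i, |S.l i - stp (S.l i)| ≤ ε) : OpLe (M - S.up) ε := by
  have e : M - S.up = S.sp (fun i => ((S.l i - stp (S.l i) : ℝ) : ℂ)) := by
    have h1 : S.sp (fun i => (S.l i : ℂ)) - S.up
        = S.sp (fun i => ((S.l i - stp (S.l i) : ℝ) : ℂ)) := by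
      unfold SD.up
      rw [S.sp_sub]
      congr 1
      funext i
      push_cast
      rfl
    rwa [← S.eq_sp] at h1
  rw [e]
  apply S.opLe_sp _ ε hε
  intro i
  rw [Complex.norm_real, Real.norm_eq_abs]
  exact h i

/-- eigenvalues of a Hermitian matrix close to a projection are close to `0` or `1` -/
lemma SD.l_near {L P : Matrix G G ℂ} (S : SD L) (hP : Proj P) (ε : ℝ) (h : OpLe (L - P) ε)
    (i : G) : |S.l i - stp (S.l i)| ≤ ε := by
  let S1 := SD.of hP.1
  -- coefficients of `v i` in the eigenbasis of `P`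
  have h1 := h.2 (S.v i)
  rw [S.norm_v, mul_one] at h1
  have e : ∀ y, (L - P).mulVec (S.v i) y
      = (S1.sp (fun j => ((S.l i - S1.l j : ℝ) : ℂ))).mulVec (S.v i) y := by
    intro y
    have e1 : S1.sp (fun j => ((S.l i - S1.l j : ℝ) : ℂ)) = (S.l i : ℂ) • 1 - P := by
      have e2 : (S.l i : ℂ) • S1.sp (fun _ => 1) - S1.sp (fun j => (S1.l j : ℂ))
          = S1.sp (fun j => ((S.l i - S1.l j : ℝ) : ℂ)) := by
        rw [S1.sp_smul, S1.sp_sub]
        congr 1
        funext j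
        push_cast
        ring
      rw [← e2, S1.sp_one, ← S1.eq_sp]
    rw [e1, Matrix.sub_mulVec, Matrix.sub_mulVec, S.eig i, Matrix.smul_mulVec, Matrix.one_mulVec]
    rfl
  rw [Finset.sum_congr rfl (fun y _ => by rw [e y]), S1.norm_sp] at h1
  have hbound : ∀ j, (S.l i - stp (S.l i)) ^ 2 ≤ (S.l i - S1.l j) ^ 2 := by
    intro j
    unfold stp
    rcases S1.proj_l hP.2 j with h2 | h2 <;> rw [h2] <;> split_ifs with h3
    · nlinarith
    · exact le_rfl
    · exact le_rfl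
    · push Not at h3
      nlinarith
  have h4 : (S.l i - stp (S.l i)) ^ 2 ≤ ε ^ 2 := by
    calc (S.l i - stp (S.l i)) ^ 2
        = (S.l i - stp (S.l i)) ^ 2 * ∑ j, ‖S1.co (S.v i) j‖ ^ 2 := by
          rw [← S1.parseval_co, S.norm_v, mul_one]
      _ = ∑ j, (S.l i - stp (S.l i)) ^ 2 * ‖S1.co (S.v i) j‖ ^ 2 := Finset.mul_sum _ _ _
      _ ≤ ∑ j, ‖((S.l i - S1.l j : ℝ) : ℂ) * S1.co (S.v i) j‖ ^ 2 := by
          apply Finset.sum_le_sum
          intro j _
          rw [norm_mul, mul_pow, Complex.norm_real, Real.norm_eq_abs, sq_abs]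
          exact mul_le_mul_of_nonneg_right (hbound j) (by positivity)
      _ ≤ ε ^ 2 := h1
  exact abs_le_of_sq_le_sq h4 h.1

end

theorem pert (hOPT : T_OPT) : T_PERT := by
  intro G _ _ _ _ L P₁ D ε hL hP₁ htr hε hclose
  let S := SD.of hL
  have hnear := S.l_near hP₁ ε hclose
  have h1 : OpLe (L - S.up) ε := S.sub_up ε hclose.1 hnear
  have h2 : OpLe (S.up - P₁) (2 * ε) := by
    have h3 := (hOPT G (S.up - L) (L - P₁) ε ε).1 (OpLe.sub_comm h1) hclose
    rw [sub_add_sub_cancel] at h3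
    rw [two_mul]
    exact h3
  refine ⟨S.up, ⟨S.up_proj, ?_, S.up_comm, OpLe.mono h1 (by linarith)⟩, h2⟩
  rw [← htr]
  exact trace_eq_of_close S.up_proj hP₁ (2 * ε) (by linarith) h2

end Pool.Agent.H65.SQ
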