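import Pool.Agent.H65.SQ.MOM

/-!
Board `sqf2_modules`, letter PRB.
-/

set_option autoImplicit false

namespace Pool.Agent.H65.SQ

open Finset Pool.Agent.H99.SQ

theorem exp_251 : (10 : ℝ) ^ 105 ≤ Real.exp 251 := by
  have h1 : (27 / 10 : ℝ) ≤ Real.exp 1 := by
    have := Real.exp_one_gt_d9
    linarith
  have h2 : Real.exp 251 = Real.exp 1 ^ 251 := by
    rw [← Real.exp_nat_mul]
    norm_num
  rw [h2]
  calc (10 : ℝ) ^ 105 ≤ (27 / 10 : ℝ) ^ 251 := by norm_num
    _ ≤ Real.exp 1 ^ 251 := pow_le_pow_left₀ (by norm_num) h1 251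

theorem pf_PRB (h1 : T_SM) (h2 : T_MOM) (h3 : T_NUM) (_h4 : T_ORD) : T_PRB := by
  classical
  intro F A hF hA
  set sm : ℕ → Prop := fun p => p ≤ 500 ∨ p = 1093 ∨ p = 3511 with hsm
  set F1 := F.filter sm with hF1
  set F2 := F.filter (fun p => ¬ sm p) with hF2
  set g : ℕ → ℝ := fun p => if sm p then 0 else Real.exp (460 / mm p) - 1 with hg
  have hg0 : ∀ p, 0 ≤ g p := by
    intro p
    simp only [hg]
    split_ifs
    · exact le_rfl
    · have h : (0 : ℝ) ≤ 460 / mm p := by positivity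
      have := Real.one_le_exp h
      linarith
  have hsum := (h2 F g (fun p hp => ⟨hF p hp, hg0 p⟩)).2
  have hs1 : ∑ p ∈ F1, (1 : ℝ) / mm p ≤ 32 / 100 := by
    apply h1
    intro p hp
    obtain ⟨hpF, hps⟩ := Finset.mem_filter.mp hp
    exact ⟨hF p hpF, hps⟩
  have hprod : ∀ a, ∏ p ∈ F, (1 + g p * ci p a) =
      Real.exp (460 * ∑ p ∈ F2, ci p a / mm p) := by
    intro a
    rw [← Finset.prod_filter_mul_prod_filter_not F sm]
    have e1 : ∏ p ∈ F.filter sm, (1 + g p * ci p a) = 1 := by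
      apply Finset.prod_eq_one
      intro p hp
      have hps := (Finset.mem_filter.mp hp).2
      simp only [hg, if_pos hps, zero_mul, add_zero]
    rw [e1, one_mul, Finset.mul_sum, Real.exp_sum]
    apply Finset.prod_congr rfl
    intro p hp
    have hps := (Finset.mem_filter.mp hp).2
    simp only [hg, if_neg hps]
    rcases ci_cases p a with h | h
    · rw [h]
      simp
    · rw [h]
      simp only [mul_one, mul_one_div]
      ring
  have hbig : ∀ a ∈ A, Real.exp 276 ≤ ∏ p ∈ F, (1 + g p * ci p a) := by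
    intro a ha
    rw [hprod a]
    apply Real.exp_le_exp.mpr
    have h5 := (hA a ha).2
    have h6 : SS F a = ∑ p ∈ F1, ci p a / mm p + ∑ p ∈ F2, ci p a / mm p := by
      rw [SS, Finset.sum_filter_add_sum_filter_not]
    have h7 : ∑ p ∈ F1, ci p a / mm p ≤ ∑ p ∈ F1, (1 : ℝ) / mm p :=
      Finset.sum_le_sum (fun p _ => div_le_div_of_nonneg_right (ci_le_one p a) (by positivity))
    rw [h6] at h5
    linarith
  have hsub : A ⊆ range (QQ F) := fun a ha => Finset.mem_range.mpr (hA a ha).1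
  have hcard : (A.card : ℝ) * Real.exp 276 ≤ ∑ a ∈ range (QQ F), ∏ p ∈ F, (1 + g p * ci p a) := by
    calc (A.card : ℝ) * Real.exp 276 = ∑ _a ∈ A, Real.exp 276 := by
          rw [Finset.sum_const, nsmul_eq_mul]
      _ ≤ ∑ a ∈ A, ∏ p ∈ F, (1 + g p * ci p a) := Finset.sum_le_sum hbig
      _ ≤ _ := by
          apply Finset.sum_le_sum_of_subset_of_nonneg hsub
          intro a _ _
          rw [hprod a]
          exact (Real.exp_pos _).le
  have hQ : (QQ F : ℝ) = (∏ p ∈ F1, (p : ℝ) ^ 2) * ∏ p ∈ F2, (p : ℝ) ^ 2 := by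
    rw [QQ, Finset.prod_filter_mul_prod_filter_not]
    push_cast
    rfl
  have hprod2 : ∏ p ∈ F, ((p : ℝ) ^ 2 + mm p * g p) ≤ Real.exp 25 * QQ F := by
    rw [← Finset.prod_filter_mul_prod_filter_not F sm, hQ]
    have e1 : ∏ p ∈ F.filter sm, ((p : ℝ) ^ 2 + mm p * g p) = ∏ p ∈ F1, (p : ℝ) ^ 2 := by
      apply Finset.prod_congr rfl
      intro p hp
      have hps := (Finset.mem_filter.mp hp).2
      simp only [hg, if_pos hps, mul_zero, add_zero]
    have e2 : ∏ p ∈ F.filter (fun p => ¬ sm p), ((p : ℝ) ^ 2 + mm p * g p) =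
        ∏ p ∈ F2, ((p : ℝ) ^ 2 + mm p * (Real.exp (460 / mm p) - 1)) := by
      apply Finset.prod_congr rfl
      intro p hp
      have hps := (Finset.mem_filter.mp hp).2
      simp only [hg, if_neg hps]
    rw [e1, e2]
    have h5 := h3 F2 (by
      intro p hp
      obtain ⟨hpF, hps⟩ := Finset.mem_filter.mp hp
      simp only [hsm, not_or, not_le] at hps
      exact ⟨hF p hpF, hps⟩)
    have h6 : 0 ≤ ∏ p ∈ F1, (p : ℝ) ^ 2 := Finset.prod_nonneg (fun p _ => by positivity)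
    calc (∏ p ∈ F1, (p : ℝ) ^ 2) * ∏ p ∈ F2, ((p : ℝ) ^ 2 + mm p * (Real.exp (460 / mm p) - 1))
        ≤ (∏ p ∈ F1, (p : ℝ) ^ 2) * (Real.exp 25 * ∏ p ∈ F2, (p : ℝ) ^ 2) :=
          mul_le_mul_of_nonneg_left h5 h6
      _ = _ := by ring
  have hfin : (A.card : ℝ) * Real.exp 276 ≤ Real.exp 25 * QQ F := hcard.trans (hsum.trans hprod2)
  have h276 : Real.exp 276 = Real.exp 25 * Real.exp 251 := by
    rw [← Real.exp_add]
    norm_num
  rw [h276] at hfin
  have h25 := Real.exp_pos 25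
  have h8 : (A.card : ℝ) * Real.exp 251 ≤ QQ F := by
    have : Real.exp 25 * ((A.card : ℝ) * Real.exp 251) ≤ Real.exp 25 * QQ F := by
      calc _ = (A.card : ℝ) * (Real.exp 25 * Real.exp 251) := by ring
        _ ≤ _ := hfin
    exact le_of_mul_le_mul_left this h25
  rw [le_div_iff₀ (by positivity)]
  calc (A.card : ℝ) * 10 ^ 105 ≤ (A.card : ℝ) * Real.exp 251 :=
        mul_le_mul_of_nonneg_left exp_251 (by positivity)
    _ ≤ _ := h8

end Pool.Agent.H65.SQ
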