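import Pool.Agent.H45.SQ.Targets2

/-!
# Spectral decompositions of Hermitian matrices, in coordinates

A library for the modules SHRP, PERT, M7, ONE of the board `sq_modules` (MP_22a11a_co).
-/

namespace Pool.Agent.H65.SQ

open Finset Polynomial Pool.Agent.H45.SQ
open scoped BigOperators ComplexConjugate ComplexOrder

section

variable {G : Type} [Fintype G] [DecidableEq G]

/-- a spectral decomposition: orthonormal eigenvectors `v i` with real eigenvalues `l i` -/
structure SD (M : Matrix G G ℂ) where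
  /-- eigenvectors -/
  v : G → G → ℂ
  /-- eigenvalues -/
  l : G → ℝ
  orth : ∀ i j, ∑ y, conj (v i y) * v j y = if i = j then 1 else 0
  compl : ∀ y y', ∑ i, v i y * conj (v i y') = if y = y' then 1 else 0
  eig : ∀ i, M.mulVec (v i) = fun y => (l i : ℂ) * v i y

/-- every Hermitian matrix has a spectral decomposition -/
noncomputable def SD.of {M : Matrix G G ℂ} (hM : M.IsHermitian) : SD M where
  v := fun i y => (hM.eigenvectorUnitary : Matrix G G ℂ) y i
  l := hM.eigenvalues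
  orth := by
    intro i j
    have h : star (hM.eigenvectorUnitary : Matrix G G ℂ) * (hM.eigenvectorUnitary : Matrix G G ℂ)
        = 1 := Unitary.coe_star_mul_self _
    have h2 := congrFun (congrFun h i) j
    rw [Matrix.mul_apply, Matrix.one_apply] at h2
    rw [← h2]
    rfl
  compl := by
    intro y y'
    have h : (hM.eigenvectorUnitary : Matrix G G ℂ) * star (hM.eigenvectorUnitary : Matrix G G ℂ)
        = 1 := Unitary.coe_mul_star_self _
    have h2 := congrFun (congrFun h y) y'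
    rw [Matrix.mul_apply, Matrix.one_apply] at h2
    rw [← h2]
    rfl
  eig := by
    intro i
    have h := hM.mulVec_eigenvectorBasis i
    have e : (fun y => (hM.eigenvectorUnitary : Matrix G G ℂ) y i)
        = ⇑(hM.eigenvectorBasis i) := rfl
    rw [e, h]
    funext y
    simp [RCLike.real_smul_eq_coe_smul (K := ℂ)]

variable {M : Matrix G G ℂ} (D : SD M)

/-- the matrix with eigenvalues `φ i` -/
noncomputable def SD.sp (φ : G → ℂ) : Matrix G G ℂ :=
  fun y y' => ∑ i, φ i * (D.v i y * conj (D.v i y'))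

lemma SD.eq_sp : M = D.sp (fun i => (D.l i : ℂ)) := by
  ext y y'
  have h1 : M y y' = ∑ z, M y z * (if z = y' then 1 else 0) := by
    simp
  rw [h1]
  simp only [← D.compl, Finset.mul_sum]
  rw [Finset.sum_comm]
  apply Finset.sum_congr rfl
  intro i _
  have h2 := congrFun (D.eig i) y
  rw [Matrix.mulVec, dotProduct] at h2
  calc ∑ z, M y z * (D.v i z * conj (D.v i y'))
      = (∑ z, M y z * D.v i z) * conj (D.v i y') := by
        rw [Finset.sum_mul]
        apply Finset.sum_congr rfl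
        intro z _
        ring
    _ = _ := by rw [h2]; ring

lemma SD.sp_mul (φ ψ : G → ℂ) : D.sp φ * D.sp ψ = D.sp (fun i => φ i * ψ i) := by
  ext y y'
  rw [Matrix.mul_apply]
  simp only [SD.sp, Finset.sum_mul_sum]
  rw [Finset.sum_comm]
  apply Finset.sum_congr rfl
  intro i _
  rw [Finset.sum_comm]
  have h : ∀ j, ∑ z, φ i * (D.v i y * conj (D.v i z)) * (ψ j * (D.v j z * conj (D.v j y')))
      = if i = j then φ i * ψ j * (D.v i y * conj (D.v j y')) else 0 := by
    intro j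
    calc ∑ z, φ i * (D.v i y * conj (D.v i z)) * (ψ j * (D.v j z * conj (D.v j y')))
        = (φ i * ψ j * (D.v i y * conj (D.v j y'))) * ∑ z, conj (D.v i z) * D.v j z := by
          rw [Finset.mul_sum]
          apply Finset.sum_congr rfl
          intro z _
          ring
      _ = _ := by
          rw [D.orth]
          split_ifs <;> ring
  rw [Finset.sum_congr rfl (fun j _ => h j), Finset.sum_ite_eq]
  simp

lemma SD.sp_one : D.sp (fun _ => 1) = 1 := by
  ext y y'
  simp only [SD.sp, one_mul]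
  rw [D.compl, Matrix.one_apply]

lemma SD.sp_add (φ ψ : G → ℂ) : D.sp φ + D.sp ψ = D.sp (fun i => φ i + ψ i) := by
  ext y y'
  simp only [SD.sp, Matrix.add_apply, add_mul, Finset.sum_add_distrib]

lemma SD.sp_sub (φ ψ : G → ℂ) : D.sp φ - D.sp ψ = D.sp (fun i => φ i - ψ i) := by
  ext y y'
  simp only [SD.sp, Matrix.sub_apply, sub_mul, Finset.sum_sub_distrib]

lemma SD.sp_smul (c : ℂ) (φ : G → ℂ) : c • D.sp φ = D.sp (fun i => c * φ i) := by
  ext y y'
  simp only [SD.sp, Matrix.smul_apply, smul_eq_mul, Finset.mul_sum, mul_assoc]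

lemma SD.sp_zero : D.sp (fun _ => 0) = 0 := by
  ext y y'
  simp [SD.sp]

lemma SD.sp_pow (φ : G → ℂ) (n : ℕ) : D.sp φ ^ n = D.sp (fun i => φ i ^ n) := by
  induction n with
  | zero => simp only [pow_zero]; exact D.sp_one.symm
  | succ n ih =>
    rw [pow_succ, ih, D.sp_mul]
    rfl

lemma SD.sp_star (φ : G → ℂ) : (D.sp φ).conjTranspose = D.sp (fun i => conj (φ i)) := by
  ext y y'
  rw [Matrix.conjTranspose_apply]
  simp only [SD.sp, star_sum, star_mul']
  apply Finset.sum_congr rfl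
  intro i _
  simp only [RCLike.star_def, Complex.conj_conj]
  ring

lemma SD.sp_herm (φ : G → ℝ) : (D.sp (fun i => (φ i : ℂ))).IsHermitian := by
  unfold Matrix.IsHermitian
  rw [D.sp_star]
  simp

/-- polynomials of `M` -/
lemma SD.aeval (q : ℝ[X]) : Polynomial.aeval M q = D.sp (fun i => ((q.eval (D.l i) : ℝ) : ℂ)) := by
  induction q using Polynomial.induction_on' with
  | add p q hp hq =>
    rw [map_add, hp, hq, D.sp_add]
    congr 1
    funext i
    rw [Polynomial.eval_add]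
    push_cast
    ring
  | monomial n a =>
    rw [Polynomial.aeval_monomial]
    have h1 : M ^ n = D.sp (fun i => (D.l i : ℂ) ^ n) := by
      have := D.sp_pow (fun i => (D.l i : ℂ)) n
      rw [← D.eq_sp] at this
      exact this
    have h2 : (algebraMap ℝ (Matrix G G ℂ)) a = D.sp (fun _ => (a : ℂ)) := by
      have h3 : (algebraMap ℝ (Matrix G G ℂ)) a = (a : ℂ) • (1 : Matrix G G ℂ) := by
        rw [Algebra.algebraMap_eq_smul_one]
        ext y y'
        simp [Matrix.smul_apply]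
      rw [h3, ← D.sp_one, D.sp_smul]
      simp
    rw [h1, h2, D.sp_mul]
    congr 1
    funext i
    rw [Polynomial.eval_monomial]
    push_cast
    ring

lemma SD.norm_v (i : G) : ∑ y, ‖D.v i y‖ ^ 2 = 1 := by
  have h := D.orth i i
  rw [if_pos rfl] at h
  have h2 : ((∑ y, ‖D.v i y‖ ^ 2 : ℝ) : ℂ) = 1 := by
    rw [← h]
    push_cast
    apply Finset.sum_congr rfl
    intro y _
    rw [Complex.conj_mul']
  exact_mod_cast h2

lemma SD.trace_sp (φ : G → ℂ) : (D.sp φ).trace = ∑ i, φ i := by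
  unfold Matrix.trace
  simp only [Matrix.diag, SD.sp]
  rw [Finset.sum_comm]
  apply Finset.sum_congr rfl
  intro i _
  rw [← Finset.mul_sum]
  have h := D.orth i i
  rw [if_pos rfl] at h
  have h2 : ∑ y, D.v i y * conj (D.v i y) = 1 := by
    rw [← h]
    apply Finset.sum_congr rfl
    intro y _
    ring
  rw [h2, mul_one]

/-- the coefficient of `g` along `v i` -/
noncomputable def SD.co (g : G → ℂ) (i : G) : ℂ := ∑ y, conj (D.v i y) * g y

lemma SD.expand (g : G → ℂ) (y : G) : g y = ∑ i, D.co g i * D.v i y := by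
  have h1 : g y = ∑ z, (if y = z then 1 else 0) * g z := by simp
  rw [h1]
  simp only [← D.compl, Finset.sum_mul, SD.co]
  rw [Finset.sum_comm]
  apply Finset.sum_congr rfl
  intro i _
  apply Finset.sum_congr rfl
  intro z _
  ring

/-- Parseval for combinations of the eigenvectors -/
lemma SD.parseval (c : G → ℂ) : ∑ y, ‖∑ i, c i * D.v i y‖ ^ 2 = ∑ i, ‖c i‖ ^ 2 := by
  have h2 : ((∑ y, ‖∑ i, c i * D.v i y‖ ^ 2 : ℝ) : ℂ) = ((∑ i, ‖c i‖ ^ 2 : ℝ) : ℂ) := by
    push_cast
    have e1 : ∀ y, (‖∑ i, c i * D.v i y‖ : ℂ) ^ 2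
        = ∑ i, ∑ j, (conj (c i) * c j) * (conj (D.v i y) * D.v j y) := by
      intro y
      rw [← Complex.conj_mul', map_sum, Finset.sum_mul_sum]
      apply Finset.sum_congr rfl
      intro i _
      apply Finset.sum_congr rfl
      intro j _
      rw [map_mul]
      ring
    rw [Finset.sum_congr rfl (fun y _ => e1 y), Finset.sum_comm]
    apply Finset.sum_congr rfl
    intro i _
    rw [Finset.sum_comm]
    have e2 : ∀ j, ∑ y, (conj (c i) * c j) * (conj (D.v i y) * D.v j y)
        = if i = j then conj (c i) * c j else 0 := by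
      intro j
      rw [← Finset.mul_sum, D.orth]
      split_ifs <;> ring
    rw [Finset.sum_congr rfl (fun j _ => e2 j), Finset.sum_ite_eq, if_pos (Finset.mem_univ _)]
    rw [Complex.conj_mul']
  exact_mod_cast h2

lemma SD.parseval_co (g : G → ℂ) : ∑ y, ‖g y‖ ^ 2 = ∑ i, ‖D.co g i‖ ^ 2 := by
  rw [← D.parseval (D.co g)]
  apply Finset.sum_congr rfl
  intro y _
  rw [← D.expand]

lemma SD.sp_mulVec (φ : G → ℂ) (g : G → ℂ) (y : G) :
    (D.sp φ).mulVec g y = ∑ i, (φ i * D.co g i) * D.v i y := by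
  rw [Matrix.mulVec, dotProduct]
  simp only [SD.sp, SD.co, Finset.sum_mul, Finset.mul_sum]
  rw [Finset.sum_comm]
  apply Finset.sum_congr rfl
  intro i _
  apply Finset.sum_congr rfl
  intro z _
  ring

lemma SD.norm_sp (φ : G → ℂ) (g : G → ℂ) :
    ∑ y, ‖(D.sp φ).mulVec g y‖ ^ 2 = ∑ i, ‖φ i * D.co g i‖ ^ 2 := by
  rw [← D.parseval (fun i => φ i * D.co g i)]
  apply Finset.sum_congr rfl
  intro y _
  rw [D.sp_mulVec]

lemma SD.opLe_sp (φ : G → ℂ) (c : ℝ) (hc : 0 ≤ c) (h : ∀ i, ‖φ i‖ ≤ c) : OpLe (D.sp φ) c := by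
  refine ⟨hc, fun g => ?_⟩
  rw [D.norm_sp, D.parseval_co g, Finset.mul_sum]
  apply Finset.sum_le_sum
  intro i _
  rw [norm_mul, mul_pow]
  exact mul_le_mul_of_nonneg_right (pow_le_pow_left₀ (norm_nonneg _) (h i) 2) (by positivity)

/-- `∑ λ_i² |v_i(y)|²` is the norm of a row of `M` -/
lemma SD.row (y : G) : ∑ i, D.l i ^ 2 * ‖D.v i y‖ ^ 2 = ∑ y', ‖M y y'‖ ^ 2 := by
  -- apply Parseval to the coefficients `l i * conj (v i y)`
  have h := D.parseval (fun i => (D.l i : ℂ) * conj (D.v i y))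
  have e1 : ∑ i, ‖(D.l i : ℂ) * conj (D.v i y)‖ ^ 2 = ∑ i, D.l i ^ 2 * ‖D.v i y‖ ^ 2 := by
    apply Finset.sum_congr rfl
    intro i _
    rw [norm_mul, mul_pow, Complex.norm_real, Real.norm_eq_abs, sq_abs, RCLike.norm_conj]
  rw [← e1, ← h]
  apply Finset.sum_congr rfl
  intro y' _
  have e2 : M y' y = ∑ i, (D.l i : ℂ) * conj (D.v i y) * D.v i y' := by
    have h3 := congrFun (congrFun D.eq_sp y') y
    rw [h3]
    simp only [SD.sp]
    apply Finset.sum_congr rfl
    intro i _
    ring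
  have e3 : M y y' = conj (M y' y) := by
    have h3 := congrFun (congrFun D.eq_sp y') y
    have h4 := congrFun (congrFun D.eq_sp y) y'
    rw [h3, h4]
    simp only [SD.sp, map_sum, map_mul, Complex.conj_conj, Complex.conj_ofReal]
    apply Finset.sum_congr rfl
    intro i _
    ring
  rw [e3, RCLike.norm_conj, e2]

omit [DecidableEq G] in
lemma card_pos_real [Nonempty G] : (0 : ℝ) < (Fintype.card G : ℝ) := by
  exact_mod_cast Fintype.card_pos

lemma SD.row_le (K : ℝ) (_hK : 0 ≤ K) (hE : EntLe M K) (y : G) :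
    ∑ i, D.l i ^ 2 * ‖D.v i y‖ ^ 2 ≤ K ^ 2 / (Fintype.card G : ℝ) := by
  have : Nonempty G := ⟨y⟩
  rw [D.row y]
  calc ∑ y', ‖M y y'‖ ^ 2 ≤ ∑ _y' : G, (K / (Fintype.card G : ℝ)) ^ 2 :=
        Finset.sum_le_sum (fun y' _ => pow_le_pow_left₀ (norm_nonneg _) (hE y y') 2)
    _ = K ^ 2 / (Fintype.card G : ℝ) := by
        have hN := card_pos_real (G := G)
        rw [Finset.sum_const, nsmul_eq_mul, Finset.card_univ]
        field_simp

/-- entries of a combination with coefficients at most `B λ_i²` -/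
lemma SD.entLe_sp (φ : G → ℂ) (B K : ℝ) (hB : 0 ≤ B) (hK : 0 ≤ K) (hE : EntLe M K)
    (h : ∀ i, ‖φ i‖ ≤ B * D.l i ^ 2) : EntLe (D.sp φ) (B * K ^ 2) := by
  intro y y'
  have hrow := fun y => D.row_le K hK hE y
  calc ‖D.sp φ y y'‖ ≤ ∑ i, ‖φ i * (D.v i y * conj (D.v i y'))‖ := norm_sum_le _ _
    _ ≤ ∑ i, B * ((|D.l i| * ‖D.v i y‖) * (|D.l i| * ‖D.v i y'‖)) := by
        apply Finset.sum_le_sum
        intro i _
        rw [norm_mul, norm_mul, RCLike.norm_conj]
        calc ‖φ i‖ * (‖D.v i y‖ * ‖D.v i y'‖)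
            ≤ (B * D.l i ^ 2) * (‖D.v i y‖ * ‖D.v i y'‖) :=
              mul_le_mul_of_nonneg_right (h i) (by positivity)
          _ = _ := by rw [← sq_abs]; ring
    _ = B * ∑ i, (|D.l i| * ‖D.v i y‖) * (|D.l i| * ‖D.v i y'‖) := by rw [Finset.mul_sum]
    _ ≤ B * (K ^ 2 / (Fintype.card G : ℝ)) := by
        apply mul_le_mul_of_nonneg_left _ hB
        have hcs := Finset.sum_mul_sq_le_sq_mul_sq (Finset.univ : Finset G)
          (fun i => |D.l i| * ‖D.v i y‖) (fun i => |D.l i| * ‖D.v i y'‖)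
        have e : ∀ y, ∑ i, (|D.l i| * ‖D.v i y‖) ^ 2 ≤ K ^ 2 / (Fintype.card G : ℝ) := by
          intro y
          refine le_trans (le_of_eq ?_) (hrow y)
          apply Finset.sum_congr rfl
          intro i _
          rw [mul_pow, sq_abs]
        have h0 : 0 ≤ K ^ 2 / (Fintype.card G : ℝ) := by positivity
        have h1 : (∑ i, (|D.l i| * ‖D.v i y‖) * (|D.l i| * ‖D.v i y'‖)) ^ 2
            ≤ (K ^ 2 / (Fintype.card G : ℝ)) ^ 2 := by
          refine hcs.trans ?_
          rw [sq (K ^ 2 / (Fintype.card G : ℝ))]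
          exact mul_le_mul (e y) (e y') (by positivity) h0
        exact le_of_sq_le_sq h1 h0
    _ = B * K ^ 2 / (Fintype.card G : ℝ) := by ring

/-- eigenvalues are bounded by the entries -/
lemma SD.abs_l_le (K : ℝ) (hK : 0 ≤ K) (hE : EntLe M K) (i : G) : |D.l i| ≤ K := by
  -- `λ_i² = ∑_y λ_i² |v_i y|² ≤ ∑_y ∑_j λ_j² |v_j y|² ≤ K²`
  have h1 : D.l i ^ 2 ≤ K ^ 2 := by
    calc D.l i ^ 2 = ∑ y, D.l i ^ 2 * ‖D.v i y‖ ^ 2 := by
          rw [← Finset.mul_sum, D.norm_v, mul_one]
      _ ≤ ∑ y, ∑ j, D.l j ^ 2 * ‖D.v j y‖ ^ 2 := by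
          apply Finset.sum_le_sum
          intro y _
          exact Finset.single_le_sum (f := fun j => D.l j ^ 2 * ‖D.v j y‖ ^ 2)
            (fun j _ => by positivity) (Finset.mem_univ i)
      _ ≤ ∑ _y : G, K ^ 2 / (Fintype.card G : ℝ) :=
          Finset.sum_le_sum (fun y _ => D.row_le K hK hE y)
      _ = K ^ 2 := by
          have : Nonempty G := ⟨i⟩
          have hN := card_pos_real (G := G)
          rw [Finset.sum_const, nsmul_eq_mul, Finset.card_univ]
          field_simp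
  exact abs_le_of_sq_le_sq h1 hK

/-- sum of the squares of the eigenvalues -/
lemma SD.sum_sq_le (K : ℝ) (hK : 0 ≤ K) (hE : EntLe M K) : ∑ i, D.l i ^ 2 ≤ K ^ 2 := by
  by_cases hG : Nonempty G
  · calc ∑ i, D.l i ^ 2 = ∑ y, ∑ i, D.l i ^ 2 * ‖D.v i y‖ ^ 2 := by
          rw [Finset.sum_comm]
          apply Finset.sum_congr rfl
          intro i _
          rw [← Finset.mul_sum, D.norm_v, mul_one]
      _ ≤ ∑ _y : G, K ^ 2 / (Fintype.card G : ℝ) :=
          Finset.sum_le_sum (fun y _ => D.row_le K hK hE y)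
      _ = K ^ 2 := by
          have hN := card_pos_real (G := G)
          rw [Finset.sum_const, nsmul_eq_mul, Finset.card_univ]
          field_simp
  · rw [not_nonempty_iff] at hG
    rw [Finset.univ_eq_empty, Finset.sum_empty]
    positivity

/-- a matrix that acts on the eigenvectors by scalars -/
lemma SD.eq_sp_of_eig (P : Matrix G G ℂ) (χ : G → ℂ)
    (h : ∀ i, P.mulVec (D.v i) = fun y => χ i * D.v i y) : P = D.sp χ := by
  ext y y'
  have h1 : P y y' = ∑ z, P y z * (if z = y' then 1 else 0) := by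
    simp
  rw [h1]
  simp only [← D.compl, Finset.mul_sum]
  rw [Finset.sum_comm]
  apply Finset.sum_congr rfl
  intro i _
  have h2 := congrFun (h i) y
  rw [Matrix.mulVec, dotProduct] at h2
  calc ∑ z, P y z * (D.v i z * conj (D.v i y'))
      = (∑ z, P y z * D.v i z) * conj (D.v i y') := by
        rw [Finset.sum_mul]
        apply Finset.sum_congr rfl
        intro z _
        ring
    _ = _ := by rw [h2]; ring

/-- the gap projection in terms of the eigenvectors: it acts by `1` on eigenvectors with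
eigenvalue in `[3/4, 5/4]` and by `0` on those with eigenvalue in `[-1/4, 1/4]`, and there are no
others -/
lemma SD.gap {P : Matrix G G ℂ} {d : ℕ} (hP : Gap M P d) :
    ∃ χ : G → ℝ, P = D.sp (fun i => (χ i : ℂ)) ∧
      ∀ i, (χ i = 1 ∧ 3 / 4 ≤ D.l i ∧ D.l i ≤ 5 / 4) ∨ (χ i = 0 ∧ |D.l i| ≤ 1 / 4) := by
  have key : ∀ i, ∃ c : ℝ, (P.mulVec (D.v i) = fun y => (c : ℂ) * D.v i y) ∧
      ((c = 1 ∧ 3 / 4 ≤ D.l i ∧ D.l i ≤ 5 / 4) ∨ (c = 0 ∧ |D.l i| ≤ 1 / 4)) := by
    intro i
    set w := P.mulVec (D.v i) with hw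
    -- `w` is an eigenvector
    have hMw : M.mulVec w = fun y => (D.l i : ℂ) * w y := by
      rw [hw, Matrix.mulVec_mulVec, ← hP.comm, ← Matrix.mulVec_mulVec, D.eig i]
      have : (fun y => (D.l i : ℂ) * D.v i y) = (D.l i : ℂ) • D.v i := rfl
      rw [this, Matrix.mulVec_smul]
      rfl
    have hPw : P.mulVec w = w := by
      rw [hw, Matrix.mulVec_mulVec, hP.proj.2]
    have hop := hP.close.2
    have hN1 : ∀ g : G → ℂ, ∑ y, ‖g y‖ ^ 2 = 0 → g = 0 := by
      intro g hg
      funext y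
      have h1 := (Finset.sum_eq_zero_iff_of_nonneg (fun y _ => by positivity)).mp hg y
        (Finset.mem_univ y)
      have h2 : ‖g y‖ = 0 := by
        exact pow_eq_zero_iff (two_ne_zero) |>.mp h1
      simpa using h2
    -- first estimate
    have h1 : (D.l i - 1) ^ 2 * ∑ y, ‖w y‖ ^ 2 ≤ (1 / 4) ^ 2 * ∑ y, ‖w y‖ ^ 2 := by
      have h := hop w
      rw [Matrix.sub_mulVec, hMw, hPw] at h
      refine le_trans (le_of_eq ?_) h
      rw [Finset.mul_sum]
      apply Finset.sum_congr rfl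
      intro y _
      have : ((fun y => (D.l i : ℂ) * w y) - w) y = ((D.l i - 1 : ℝ) : ℂ) * w y := by
        simp only [Pi.sub_apply]
        push_cast
        ring
      rw [this, norm_mul, mul_pow, Complex.norm_real, Real.norm_eq_abs, sq_abs]
    -- second estimate
    set w' : G → ℂ := D.v i - w with hw'
    have hMw' : M.mulVec w' = fun y => (D.l i : ℂ) * w' y := by
      rw [hw', Matrix.mulVec_sub, hMw, D.eig i]
      funext y
      simp only [Pi.sub_apply]
      ring
    have hPw' : P.mulVec w' = 0 := by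
      rw [hw', Matrix.mulVec_sub, hPw, ← hw, sub_self]
    have h2 : (D.l i) ^ 2 * ∑ y, ‖w' y‖ ^ 2 ≤ (1 / 4) ^ 2 * ∑ y, ‖w' y‖ ^ 2 := by
      have h := hop w'
      rw [Matrix.sub_mulVec, hMw', hPw', sub_zero] at h
      refine le_trans (le_of_eq ?_) h
      rw [Finset.mul_sum]
      apply Finset.sum_congr rfl
      intro y _
      rw [norm_mul, mul_pow, Complex.norm_real, Real.norm_eq_abs, sq_abs]
    have hcase1 : (∑ y, ‖w y‖ ^ 2 = 0) ∨ (D.l i - 1) ^ 2 ≤ (1 / 4) ^ 2 := by
      by_cases h0 : ∑ y, ‖w y‖ ^ 2 = 0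
      · exact Or.inl h0
      · right
        have hpos : 0 < ∑ y, ‖w y‖ ^ 2 := lt_of_le_of_ne (by positivity) (Ne.symm h0)
        exact le_of_mul_le_mul_right h1 hpos
    have hcase2 : (∑ y, ‖w' y‖ ^ 2 = 0) ∨ (D.l i) ^ 2 ≤ (1 / 4) ^ 2 := by
      by_cases h0 : ∑ y, ‖w' y‖ ^ 2 = 0
      · exact Or.inl h0
      · right
        have hpos : 0 < ∑ y, ‖w' y‖ ^ 2 := lt_of_le_of_ne (by positivity) (Ne.symm h0)
        exact le_of_mul_le_mul_right h2 hpos
    have habs : (D.l i) ^ 2 ≤ (1 / 4) ^ 2 → |D.l i| ≤ 1 / 4 := by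
      intro h
      exact abs_le_of_sq_le_sq h (by norm_num : (0 : ℝ) ≤ 1 / 4)
    rcases hcase2 with hz | hz
    · -- `w' = 0`, so `P v = v`
      have hw0 : w' = 0 := hN1 w' hz
      have hwv : w = D.v i := by
        have : D.v i - w = 0 := hw0
        exact (sub_eq_zero.mp this).symm
      have hne : ¬ ∑ y, ‖w y‖ ^ 2 = 0 := by
        rw [hwv, D.norm_v]; exact one_ne_zero
      have hl := hcase1.resolve_left hne
      have hl' := abs_le.mp (abs_le_of_sq_le_sq hl (by norm_num : (0 : ℝ) ≤ 1 / 4))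
      refine ⟨1, ?_, Or.inl ⟨rfl, by linarith [hl'.1], by linarith [hl'.2]⟩⟩
      rw [hwv]
      funext y
      simp
    · have hl := habs hz
      have hw0 : ∑ y, ‖w y‖ ^ 2 = 0 := by
        rcases hcase1 with h | h
        · exact h
        · exfalso
          have h3 := abs_le.mp (abs_le_of_sq_le_sq h (by norm_num : (0 : ℝ) ≤ 1 / 4))
          have h4 := abs_le.mp hl
          linarith [h3.1, h4.2]
      refine ⟨0, ?_, Or.inr ⟨rfl, hl⟩⟩
      rw [hN1 w hw0]
      funext y
      simp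
  choose χ hχ using key
  exact ⟨χ, D.eq_sp_of_eig P _ (fun i => (hχ i).1), fun i => (hχ i).2⟩

end

end Pool.Agent.H65.SQ
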